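/-
MP_72c0ec_gt (Santalo's shadow perimeter inequality), helper94: definitions.
-/
import Mathlib

set_option autoImplicit false

namespace San

open Real

/-- Euclidean three-space. -/
abbrev E3 := EuclideanSpace ℝ (Fin 3)

/-- The support function of `K`: `supp K v` is the supremum of the scalar products of the points of
`K` with `v`. -/
noncomputable def supp (K : Set E3) (v : E3) : ℝ := sSup ((fun x : E3 => inner ℝ x v) '' K)

/-- The perimeter of the shadow (orthogonal projection) of `K` on the plane spanned by the
orthonormal vectors `e₁, e₂`, by Cauchy's formula: the integral of the support function of the shadow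
over the unit circle of the plane. -/
noncomputable def shadowPerimeter (K : Set E3) (e₁ e₂ : E3) : ℝ :=
  ∫ t in (0:ℝ)..(2 * π), supp K (cos t • e₁ + sin t • e₂)

/-- The infimum of the perimeters of all shadows of `K`. -/
noncomputable def minShadow (K : Set E3) : ℝ :=
  sInf {L | ∃ e₁ e₂ : E3, Orthonormal ℝ ![e₁, e₂] ∧ L = shadowPerimeter K e₁ e₂}

/-- The area of the triangle `P Q R`. -/
noncomputable def triArea (P Q R : E3) : ℝ :=
  √(‖Q - P‖ ^ 2 * ‖R - P‖ ^ 2 - inner ℝ (Q - P) (R - P) ^ 2) / 2

end San
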