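/-
MP_72c0ec_gt (Santalo's shadow perimeter inequality), helper94: Cauchy's formula for the perimeter
of triangles and quadrangles.
-/
import Mathlib

set_option autoImplicit false

namespace San

open Real intervalIntegral

/-- `∫ |cos| = 4` over a period. -/
lemma integral_abs_cos : ∫ t in (0:ℝ)..(2 * π), |cos t| = 4 := by
  have hper : Function.Periodic (fun t => |cos t|) (2 * π) := fun t => by simp [cos_add_two_pi]
  have h1 : ∫ t in (0:ℝ)..(0 + 2 * π), |cos t| = ∫ t in (-(π / 2))..(-(π / 2) + 2 * π), |cos t| :=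
    hper.intervalIntegral_add_eq 0 (-(π / 2))
  rw [zero_add] at h1
  have hint : ∀ a b : ℝ, IntervalIntegrable (fun t => |cos t|) MeasureTheory.volume a b :=
    fun a b => (continuous_cos.abs).intervalIntegrable a b
  rw [h1, ← integral_add_adjacent_intervals (hint (-(π / 2)) (π / 2)) (hint (π / 2) _)]
  have h2 : ∫ t in (-(π / 2))..(π / 2), |cos t| = 2 := by
    have : ∫ t in (-(π / 2))..(π / 2), |cos t| = ∫ t in (-(π / 2))..(π / 2), cos t := by
      refine integral_congr fun t ht => ?_
      rw [Set.uIcc_of_le (by linarith [pi_pos])] at ht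
      exact abs_of_nonneg (cos_nonneg_of_mem_Icc ht)
    rw [this, integral_cos]
    simp
    norm_num
  have h3 : ∫ t in (π / 2)..(-(π / 2) + 2 * π), |cos t| = 2 := by
    have e : -(π / 2) + 2 * π = π / 2 + π := by ring
    rw [e]
    have : ∫ t in (π / 2)..(π / 2 + π), |cos t| = ∫ t in (π / 2)..(π / 2 + π), -cos t := by
      refine integral_congr fun t ht => ?_
      rw [Set.uIcc_of_le (by linarith [pi_pos])] at ht
      exact abs_of_nonpos (cos_nonpos_of_pi_div_two_le_of_le ht.1 (by linarith [ht.2]))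
    rw [this, integral_neg, integral_cos]
    have : sin (π / 2 + π) = -1 := by rw [sin_add_pi, sin_pi_div_two]
    rw [this, sin_pi_div_two]
    norm_num
  rw [h2, h3]
  norm_num

/-- `∫ |x cos t + y sin t| = 4 √(x² + y²)` over a period. -/
lemma integral_abs_lin (x y : ℝ) :
    ∫ t in (0:ℝ)..(2 * π), |x * cos t + y * sin t| = 4 * √(x ^ 2 + y ^ 2) := by
  set z : ℂ := ⟨x, y⟩ with hz
  have hx : x = ‖z‖ * cos z.arg := by
    rw [Complex.norm_mul_cos_arg]
  have hy : y = ‖z‖ * sin z.arg := by
    rw [Complex.norm_mul_sin_arg]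
  have hn : ‖z‖ = √(x ^ 2 + y ^ 2) := by
    rw [Complex.norm_eq_sqrt_sq_add_sq]
  have h1 : ∀ t : ℝ, |x * cos t + y * sin t| = ‖z‖ * |cos (t - z.arg)| := by
    intro t
    rw [cos_sub]
    nth_rw 1 [hx]
    nth_rw 1 [hy]
    rw [show ‖z‖ * cos z.arg * cos t + ‖z‖ * sin z.arg * sin t =
      ‖z‖ * (cos t * cos z.arg + sin t * sin z.arg) by ring, abs_mul, abs_of_nonneg (norm_nonneg z)]
  simp only [h1]
  rw [integral_const_mul, ← hn]
  have h2 : ∫ t in (0:ℝ)..(2 * π), |cos (t - z.arg)| = ∫ t in (0:ℝ)..(2 * π), |cos t| := by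
    rw [integral_comp_sub_right (fun t => |cos t|) z.arg]
    have hper : Function.Periodic (fun t => |cos t|) (2 * π) := fun t => by
      simp [cos_add_two_pi]
    have := hper.intervalIntegral_add_eq (0 - z.arg) 0
    rw [zero_add] at this
    rw [← this]
    congr 1
    ring
  rw [h2, integral_abs_cos]
  ring

/-- the maximum integrates to half of the oscillation. -/
lemma integral_max_eq (F G : ℝ → ℝ) (hF : Continuous F) (hG : Continuous G)
    (hFp : ∀ t, F (t + π) = -G t) (hper : ∀ t, F (t + 2 * π) = F t) :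
    ∫ t in (0:ℝ)..(2 * π), F t = (1 / 2) * ∫ t in (0:ℝ)..(2 * π), (F t - G t) := by
  have h1 : ∫ t in (0:ℝ)..(2 * π), F (t + π) = ∫ t in (0:ℝ)..(2 * π), F t := by
    rw [integral_comp_add_right]
    have hp : Function.Periodic F (2 * π) := hper
    have := hp.intervalIntegral_add_eq (0 + π) 0
    rw [zero_add (2 * π)] at this
    rw [← this]
    congr 1
    ring
  have h2 : ∫ t in (0:ℝ)..(2 * π), F (t + π) = -∫ t in (0:ℝ)..(2 * π), G t := by
    simp only [hFp]
    rw [integral_neg]
  rw [integral_sub (hF.intervalIntegrable _ _) (hG.intervalIntegrable _ _)]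
  linarith

end San
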