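/-
MP_72c0ec_gt (Santalo's shadow perimeter inequality), helper94: perimeters of the shadows of a
tetrahedron as integrals of oscillations.
-/
import Pool.Agent.H.MP_72c0ec_gt.Defs
import Pool.Agent.H.MP_72c0ec_gt.Integral

set_option autoImplicit false

namespace San

open Real intervalIntegral

/-- the coordinate of `P` in the direction `t` of the plane. -/
noncomputable def X (e₁ e₂ P : E3) (t : ℝ) : ℝ := inner ℝ P e₁ * cos t + inner ℝ P e₂ * sin t

lemma inner_dir (e₁ e₂ P : E3) (t : ℝ) :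
    inner ℝ P (cos t • e₁ + sin t • e₂) = X e₁ e₂ P t := by
  rw [inner_add_right, inner_smul_right, inner_smul_right, X]
  ring

lemma X_sub (e₁ e₂ P Q : E3) (t : ℝ) : X e₁ e₂ (P - Q) t = X e₁ e₂ P t - X e₁ e₂ Q t := by
  rw [X, X, X, inner_sub_left, inner_sub_left]
  ring

lemma X_pi (e₁ e₂ P : E3) (t : ℝ) : X e₁ e₂ P (t + π) = -X e₁ e₂ P t := by
  rw [X, X, cos_add_pi, sin_add_pi]
  ring

lemma X_two_pi (e₁ e₂ P : E3) (t : ℝ) : X e₁ e₂ P (t + 2 * π) = X e₁ e₂ P t := by
  rw [X, X, cos_add_two_pi, sin_add_two_pi]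

lemma X_cont (e₁ e₂ P : E3) : Continuous (X e₁ e₂ P) := by
  unfold X
  fun_prop

lemma integral_abs_X (e₁ e₂ P : E3) : ∫ t in (0:ℝ)..(2 * π), |X e₁ e₂ P t| =
    4 * √(inner ℝ P e₁ ^ 2 + inner ℝ P e₂ ^ 2) := by
  unfold X
  exact integral_abs_lin _ _

lemma integral_abs_X_sub (e₁ e₂ P Q : E3) :
    ∫ t in (0:ℝ)..(2 * π), |X e₁ e₂ P t - X e₁ e₂ Q t| =
    4 * √(inner ℝ (P - Q) e₁ ^ 2 + inner ℝ (P - Q) e₂ ^ 2) := by
  simp only [← X_sub]
  exact integral_abs_X _ _ _

/-- the support function of a tetrahedron. -/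
lemma supp_tetra (A B C D v : E3) : supp (convexHull ℝ {A, B, C, D}) v =
    max (max (inner ℝ A v) (inner ℝ B v)) (max (inner ℝ C v) (inner ℝ D v)) := by
  set M := max (max (inner ℝ A v) (inner ℝ B v)) (max (inner ℝ C v) (inner ℝ D v)) with hM
  have hA : inner ℝ A v ≤ M := (le_max_left _ _).trans (le_max_left _ _)
  have hB : inner ℝ B v ≤ M := (le_max_right _ _).trans (le_max_left _ _)
  have hC : inner ℝ C v ≤ M := (le_max_left _ _).trans (le_max_right _ _)
  have hD : inner ℝ D v ≤ M := (le_max_right _ _).trans (le_max_right _ _)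
  refine IsGreatest.csSup_eq ⟨?_, ?_⟩
  · have hmem : ∀ P : E3, P ∈ ({A, B, C, D} : Set E3) → M = inner ℝ P v →
        M ∈ (fun x : E3 => inner ℝ x v) '' (convexHull ℝ {A, B, C, D}) :=
      fun P hP h => ⟨P, subset_convexHull ℝ _ hP, h.symm⟩
    rcases max_choice (max (inner ℝ A v) (inner ℝ B v)) (max (inner ℝ C v) (inner ℝ D v)) with h | h
    · rcases max_choice (inner ℝ A v) (inner ℝ B v) with h2 | h2
      · exact hmem A (by simp) (by rw [hM, h, h2])
      · exact hmem B (by simp) (by rw [hM, h, h2])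
    · rcases max_choice (inner ℝ C v) (inner ℝ D v) with h2 | h2
      · exact hmem C (by simp) (by rw [hM, h, h2])
      · exact hmem D (by simp) (by rw [hM, h, h2])
  · rintro _ ⟨x, hx, rfl⟩
    have hconv : Convex ℝ {x : E3 | inner ℝ x v ≤ M} := by
      have hl : IsLinearMap ℝ (fun x : E3 => inner ℝ x v) :=
        ⟨fun x y => inner_add_left x y v, fun c x => by simp [inner_smul_left]⟩
      exact convex_halfSpace_le hl M
    have hsub : convexHull ℝ {A, B, C, D} ⊆ {x : E3 | inner ℝ x v ≤ M} := by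
      refine convexHull_min ?_ hconv
      intro P hP
      simp only [Set.mem_insert_iff, Set.mem_singleton_iff] at hP
      rcases hP with rfl | rfl | rfl | rfl
      · exact hA
      · exact hB
      · exact hC
      · exact hD
    exact hsub hx

/-- the maximum of the four coordinates. -/
noncomputable def mx (e₁ e₂ A B C D : E3) (t : ℝ) : ℝ :=
  max (max (X e₁ e₂ A t) (X e₁ e₂ B t)) (max (X e₁ e₂ C t) (X e₁ e₂ D t))

/-- the minimum of the four coordinates. -/
noncomputable def mn (e₁ e₂ A B C D : E3) (t : ℝ) : ℝ :=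
  min (min (X e₁ e₂ A t) (X e₁ e₂ B t)) (min (X e₁ e₂ C t) (X e₁ e₂ D t))

lemma mx_cont (e₁ e₂ A B C D : E3) : Continuous (mx e₁ e₂ A B C D) :=
  ((X_cont _ _ _).max (X_cont _ _ _)).max ((X_cont _ _ _).max (X_cont _ _ _))

lemma mn_cont (e₁ e₂ A B C D : E3) : Continuous (mn e₁ e₂ A B C D) :=
  ((X_cont _ _ _).min (X_cont _ _ _)).min ((X_cont _ _ _).min (X_cont _ _ _))

/-- the perimeter of a shadow is half of the integral of the oscillation. -/
lemma perim_osc (e₁ e₂ A B C D : E3) : shadowPerimeter (convexHull ℝ {A, B, C, D}) e₁ e₂ =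
    (1 / 2) * ∫ t in (0:ℝ)..(2 * π), (mx e₁ e₂ A B C D t - mn e₁ e₂ A B C D t) := by
  have h : shadowPerimeter (convexHull ℝ {A, B, C, D}) e₁ e₂ =
      ∫ t in (0:ℝ)..(2 * π), mx e₁ e₂ A B C D t := by
    unfold shadowPerimeter mx
    refine integral_congr fun t _ => ?_
    simp only [supp_tetra, inner_dir]
  rw [h]
  refine integral_max_eq _ _ (mx_cont _ _ _ _ _ _) (mn_cont _ _ _ _ _ _) (fun t => ?_) (fun t => ?_)
  · simp only [mx, mn, X_pi, max_neg_neg]
  · simp only [mx, X_two_pi]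

/-- the oscillation of three numbers. -/
lemma osc3 (x y z : ℝ) : max (max x x) (max y z) - min (min x x) (min y z) =
    (|y - x| + |z - x| + |y - z|) / 2 := by
  rw [max_self, min_self]
  rcases le_total x y with h1 | h1 <;> rcases le_total x z with h2 | h2 <;>
    rcases le_total y z with h3 | h3 <;>
    simp only [max_eq_left, max_eq_right, min_eq_left, min_eq_right, abs_of_nonneg, abs_of_nonpos,
      sub_nonneg, sub_nonpos, h1, h2, h3] <;> linarith

/-- three numbers in an interval. -/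
lemma osc3' (x y z M m : ℝ) (h1 : x ≤ M) (h2 : y ≤ M) (h3 : z ≤ M) (h4 : m ≤ x) (h5 : m ≤ y)
    (h6 : m ≤ z) : (|x - y| + |y - z| + |z - x|) / 2 ≤ M - m := by
  rcases abs_cases (x - y) with ⟨a, _⟩ | ⟨a, _⟩ <;> rcases abs_cases (y - z) with ⟨b, _⟩ | ⟨b, _⟩ <;>
    rcases abs_cases (z - x) with ⟨c, _⟩ | ⟨c, _⟩ <;> rw [a, b, c] <;> linarith

/-- four numbers in an interval, in crossed position. -/
lemma osc4 (x y z w M m : ℝ) (h1 : x ≤ M) (h2 : y ≤ M) (h3 : z ≤ M) (h3' : w ≤ M) (h4 : m ≤ x)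
    (h5 : m ≤ y) (h6 : m ≤ z) (h6' : m ≤ w) (h7 : min x y ≤ max z w) (h8 : min z w ≤ max x y) :
    (|x - z| + |z - y| + |y - w| + |w - x|) / 2 ≤ M - m := by
  rcases le_total x y with k1 | k1 <;> rcases le_total z w with k2 | k2 <;>
    simp only [max_eq_left, max_eq_right, min_eq_left, min_eq_right, k1, k2] at h7 h8 <;>
    rcases abs_cases (x - z) with ⟨a, _⟩ | ⟨a, _⟩ <;>
    rcases abs_cases (z - y) with ⟨b, _⟩ | ⟨b, _⟩ <;>
    rcases abs_cases (y - w) with ⟨c, _⟩ | ⟨c, _⟩ <;>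
    rcases abs_cases (w - x) with ⟨d, _⟩ | ⟨d, _⟩ <;> rw [a, b, c, d] <;> linarith

/-- crossed position from an affine dependence. -/
lemma crossed (x y z w a b c d : ℝ) (ha : 0 ≤ a) (hb : 0 ≤ b) (hc : 0 ≤ c) (hd : 0 ≤ d)
    (hs : a + b = c + d) (hpos : 0 < a + b) (h : a * x + b * y = c * z + d * w) :
    min x y ≤ max z w := by
  by_contra hcon
  push Not at hcon
  have h1 : (a + b) * min x y ≤ a * x + b * y := by
    have := mul_le_mul_of_nonneg_left (min_le_left x y) ha
    have := mul_le_mul_of_nonneg_left (min_le_right x y) hb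
    linarith
  have h2 : c * z + d * w ≤ (c + d) * max z w := by
    have := mul_le_mul_of_nonneg_left (le_max_left z w) hc
    have := mul_le_mul_of_nonneg_left (le_max_right z w) hd
    linarith
  have h3 : (a + b) * max z w < (a + b) * min x y := mul_lt_mul_of_pos_left hcon hpos
  rw [← hs] at h2
  linarith

end San
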