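/-
MP_72c0ec_gt (Santalo's shadow perimeter inequality), helper94: the planar inequality.
-/
import Mathlib

set_option autoImplicit false

namespace San

lemma r_bounds (r : ℝ) (hr0 : 0 < r) (hr : r ^ 2 = 3) : 1.732 < r ∧ r < 1.7321 := by
  constructor <;> nlinarith

lemma key_H1 (r y : ℝ) (hr0 : 0 < r) (hr : r ^ 2 = 3) (hy0 : 0 < y) (hy1 : y < 0.7321) :
    0 < (r + 1 - y) * (1 - y) * (r - 1 - y) * (1 + y) + 1 -
      (1 + ((2 * r - 3) * (r + 1 - y) ^ 2 - (r + 1 - y))) ^ 2 := by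
  obtain ⟨hr1, hr2⟩ := r_bounds r hr0 hr
  have e : (r + 1 - y) * (1 - y) * (r - 1 - y) * (1 + y) + 1 -
      (1 + ((2 * r - 3) * (r + 1 - y) ^ 2 - (r + 1 - y))) ^ 2 =
      y * ((8 * r - 12) + (26 * r - 50) * y + (34 * r - 54) * y ^ 2 + (12 * r - 22) * y ^ 3) := by
    have h3 : r ^ 3 = 3 * r := by rw [pow_succ, hr]
    have h4 : r ^ 4 = 9 := by rw [show r ^ 4 = (r ^ 2) ^ 2 by ring, hr]; norm_num
    have h5 : r ^ 5 = 9 * r := by rw [pow_succ, h4]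
    have h6 : r ^ 6 = 27 := by rw [show r ^ 6 = (r ^ 2) ^ 3 by ring, hr]; norm_num
    ring_nf
    rw [h6, h5, h4, h3, hr]
    ring
  rw [e]
  refine mul_pos hy0 ?_
  have g1 : 0 ≤ y ^ 2 * (0.7321 - y) := by
    have : 0 < 0.7321 - y := by linarith
    positivity
  have g2 : (0:ℝ) ≤ (y - 0.62) ^ 2 := sq_nonneg _
  have g3 : 0 < y ^ 2 := by positivity
  nlinarith [mul_pos hy0 (sub_pos.2 hr1), mul_pos g3 (sub_pos.2 hr1),
    mul_nonneg g1 (sub_pos.2 hr1).le, mul_nonneg g1 (sub_pos.2 hr2).le]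

lemma key_H2 (r x : ℝ) (hr0 : 0 < r) (hr : r ^ 2 = 3) (hx0 : 0 < x) (hx1 : x < 1)
    (hp : 2 < r + x) :
    0 < (r + x) * x * (r - x) * x + x ^ 2 -
      (x + ((2 * r - 3) * (r + x) ^ 2 - (r + x))) ^ 2 := by
  obtain ⟨hr1, hr2⟩ := r_bounds r hr0 hr
  have e1 : (r + x) * x * (r - x) * x + x ^ 2 = x ^ 2 * (4 - x ^ 2) := by
    have : (r + x) * x * (r - x) * x + x ^ 2 = x ^ 2 * (r ^ 2 - x ^ 2) + x ^ 2 := by ring
    rw [this, hr]; ring
  rw [e1]
  have e2 : x + ((2 * r - 3) * (r + x) ^ 2 - (r + x)) =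
      r * x - (2 * r - 3) * ((1 - x) * (x + r - 1)) := by
    have : r ^ 3 = 3 * r := by rw [pow_succ, hr]
    ring_nf
    rw [this, hr]
    ring
  have ht2 : 0 < x + ((2 * r - 3) * (r + x) ^ 2 - (r + x)) := by
    have g1 : (2:ℝ) ^ 2 < (r + x) ^ 2 := pow_lt_pow_left₀ hp (by norm_num) (by norm_num)
    have g2 : (2 * r - 3) * 2 ^ 2 < (2 * r - 3) * (r + x) ^ 2 :=
      mul_lt_mul_of_pos_left g1 (by linarith)
    linarith
  rw [e2] at ht2 ⊢
  have ht : 0 < (2 * r - 3) * ((1 - x) * (x + r - 1)) := by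
    refine mul_pos (by linarith) (mul_pos (by linarith) (by linarith))
  have h3 : (r * x - (2 * r - 3) * ((1 - x) * (x + r - 1))) ^ 2 < (r * x) ^ 2 := by
    refine pow_lt_pow_left₀ (by linarith) ht2.le (by norm_num)
  have h4 : (r * x) ^ 2 ≤ x ^ 2 * (4 - x ^ 2) := by
    rw [mul_pow, hr]
    have : x ^ 2 * x ^ 2 ≤ x ^ 2 * 1 := by
      refine mul_le_mul_of_nonneg_left ?_ (by positivity)
      nlinarith
    linarith
  linarith

/-- The key inequality on the extremal triangles, normalised. -/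
lemma key_H (r p w : ℝ) (hr0 : 0 < r) (hr : r ^ 2 = 3) (hp : 2 < p) (hw0 : p - r ≤ w)
    (hw1 : w ≤ 1) (hp2 : p < r + 1) :
    ((2 * r - 3) * p ^ 2 - (p - w)) ^ 2 <
      ((p - w) ^ 2 - w ^ 2) * (w ^ 2 - (r - (p - w)) ^ 2) + w ^ 2 := by
  obtain ⟨hr1, hr2⟩ := r_bounds r hr0 hr
  have h1 := key_H1 r (r + 1 - p) hr0 hr (by linarith) (by linarith)
  have h2 := key_H2 r (p - r) hr0 hr (by linarith) (by linarith) (by linarith)
  have hc : 0 ≤ 4 * p * (p - r) := by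
    have : 0 < p - r := by linarith
    positivity
  have hw0' : 0 < 1 - (p - r) := by linarith
  have a1 : 0 ≤ w - (p - r) := by linarith
  have a2 : 0 ≤ 1 - w := by linarith
  have hpos2 : 0 < (w - (p - r)) * ((r + 1 - (r + 1 - p)) * (1 - (r + 1 - p)) *
        (r - 1 - (r + 1 - p)) * (1 + (r + 1 - p)) + 1 -
        (1 + ((2 * r - 3) * (r + 1 - (r + 1 - p)) ^ 2 - (r + 1 - (r + 1 - p)))) ^ 2) +
      (1 - w) * ((r + (p - r)) * (p - r) * (r - (p - r)) * (p - r) + (p - r) ^ 2 -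
        ((p - r) + ((2 * r - 3) * (r + (p - r)) ^ 2 - (r + (p - r)))) ^ 2) +
      4 * p * (p - r) * ((w - (p - r)) * (1 - w) * (1 - (p - r))) := by
    have a3 := mul_nonneg hc (mul_nonneg (mul_nonneg a1 a2) hw0'.le)
    rcases a1.lt_or_eq with h | h
    · exact add_pos_of_pos_of_nonneg (add_pos_of_pos_of_nonneg (mul_pos h h1)
        (mul_nonneg a2 h2.le)) a3
    · have a4 : 0 < 1 - w := by linarith
      exact add_pos_of_pos_of_nonneg (add_pos_of_nonneg_of_pos (mul_nonneg a1 h1.le)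
        (mul_pos a4 h2)) a3
  have hkey : (w - (p - r)) * ((r + 1 - (r + 1 - p)) * (1 - (r + 1 - p)) *
        (r - 1 - (r + 1 - p)) * (1 + (r + 1 - p)) + 1 -
        (1 + ((2 * r - 3) * (r + 1 - (r + 1 - p)) ^ 2 - (r + 1 - (r + 1 - p)))) ^ 2) +
      (1 - w) * ((r + (p - r)) * (p - r) * (r - (p - r)) * (p - r) + (p - r) ^ 2 -
        ((p - r) + ((2 * r - 3) * (r + (p - r)) ^ 2 - (r + (p - r)))) ^ 2) +
      4 * p * (p - r) * ((w - (p - r)) * (1 - w) * (1 - (p - r))) =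
      (((p - w) ^ 2 - w ^ 2) * (w ^ 2 - (r - (p - w)) ^ 2) + w ^ 2 -
      ((2 * r - 3) * p ^ 2 - (p - w)) ^ 2) * (1 - (p - r)) := by
    ring
  rw [hkey] at hpos2
  have := (pos_iff_pos_of_mul_pos hpos2).2 hw0'
  exact sub_pos.1 this

/-- The planar inequality, normalised: a triangle with sides `a, b, w`. -/
lemma planar_norm (r a b w : ℝ) (hr0 : 0 < r) (hr : r ^ 2 = 3) (ha0 : 0 ≤ a) (hb0 : 0 ≤ b)
    (hw0 : 0 ≤ w) (ha : 2 * a ≤ r) (hb : 2 * b ≤ r) (hw : w ≤ 1) (h1 : w ≤ a + b)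
    (h2 : a - b ≤ w) (h3 : b - a ≤ w) (hpos : 0 < a + b) :
    (2 * r - 3) * (a + b + w) ^ 2 ≤
      (a + b) + √(((a + b) ^ 2 - w ^ 2) * (w ^ 2 - (a - b) ^ 2) + w ^ 2) ∧
    ((2 * r - 3) * (a + b + w) ^ 2 =
      (a + b) + √(((a + b) ^ 2 - w ^ 2) * (w ^ 2 - (a - b) ^ 2) + w ^ 2) →
      2 * a = r ∧ 2 * b = r ∧ w = 1) := by
  obtain ⟨hr1, hr2⟩ := r_bounds r hr0 hr
  obtain ⟨s, hs⟩ : ∃ s, s = a + b := ⟨_, rfl⟩
  obtain ⟨Q, hQ⟩ : ∃ Q, Q = (s ^ 2 - w ^ 2) * (w ^ 2 - (a - b) ^ 2) + w ^ 2 := ⟨_, rfl⟩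
  rw [← hs, ← hQ]
  have e1 : 0 ≤ s ^ 2 - w ^ 2 := sub_nonneg.2 (pow_le_pow_left₀ hw0 (by linarith) 2)
  have hQ1 : w ^ 2 ≤ Q := by
    have e2 : 0 ≤ w ^ 2 - (a - b) ^ 2 := by
      have : (a - b) ^ 2 ≤ w ^ 2 := sq_le_sq' (by linarith) (by linarith)
      linarith
    have := mul_nonneg e1 e2
    rw [hQ]
    linarith
  have hR : w ≤ √Q := Real.le_sqrt_of_sq_le hQ1
  have hs1 : s ≤ r := by linarith
  rcases le_or_gt (s + w) 2 with hp | hp
  · have : (2 * r - 3) * (s + w) ^ 2 < s + w := by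
      have hsw : 0 < s + w := by linarith
      have g1 : (2 * r - 3) * (s + w) < 1 := by
        have : (2 * r - 3) * (s + w) ≤ (2 * r - 3) * 2 :=
          mul_le_mul_of_nonneg_left hp (by linarith)
        linarith
      have g2 : (2 * r - 3) * (s + w) * (s + w) < 1 * (s + w) := mul_lt_mul_of_pos_right g1 hsw
      calc (2 * r - 3) * (s + w) ^ 2 = (2 * r - 3) * (s + w) * (s + w) := by ring
        _ < 1 * (s + w) := g2
        _ = s + w := one_mul _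
    exact ⟨by linarith, fun h => by linarith⟩
  · -- the main case
    have hab : (a - b) ^ 2 ≤ (r - s) ^ 2 := by
      refine sq_le_sq' ?_ ?_ <;> linarith
    have hQ0 : (s ^ 2 - w ^ 2) * (w ^ 2 - (r - s) ^ 2) + w ^ 2 ≤ Q := by
      have e2 := mul_le_mul_of_nonneg_left (sub_le_sub_left hab (w ^ 2)) e1
      rw [hQ]
      linarith
    rcases eq_or_lt_of_le (show s + w ≤ r + 1 by linarith) with he | hlt
    · -- extremal
      have hsr : s = r := by linarith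
      have hw1 : w = 1 := by linarith
      have e : (2 * r - 3) * (s + w) ^ 2 = 2 * r := by
        rw [hsr, hw1]
        have : (2 * r - 3) * (r + 1) ^ 2 = 2 * r * r ^ 2 + r ^ 2 - 4 * r - 3 := by ring
        rw [this, hr]
        ring
      have hQ3 : 3 ≤ Q := by
        have : (s ^ 2 - w ^ 2) * (w ^ 2 - (r - s) ^ 2) + w ^ 2 = 3 := by
          rw [hsr, hw1, hr]; ring
        linarith
      have hR3 : r ≤ √Q := Real.le_sqrt_of_sq_le (by rw [hr]; exact hQ3)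
      refine ⟨by rw [e, hsr]; linarith, fun _ => ⟨by linarith, by linarith, hw1⟩⟩
    · have hk := key_H r (s + w) w hr0 hr hp (by linarith) hw hlt
      rw [show s + w - w = s by ring] at hk
      have hlt2 : ((2 * r - 3) * (s + w) ^ 2 - s) ^ 2 < Q := lt_of_lt_of_le hk hQ0
      have hlt3 : (2 * r - 3) * (s + w) ^ 2 - s < √Q := Real.lt_sqrt_of_sq_lt hlt2
      exact ⟨by linarith, fun h => by linarith⟩

end San
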