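/-
MP_72c0ec_gt (Santalo's shadow perimeter inequality), helper94: the shadow along the longest edge of a
tetrahedron.
-/
import Pool.Agent.H.MP_72c0ec_gt.Osc
import Pool.Agent.H.MP_72c0ec_gt.Planar

set_option autoImplicit false

namespace San

open Real intervalIntegral

/-- the perimeter of the shadow along the edge `AB`. -/
lemma perim_edge (e₁ e₂ A B C D : E3) (h1 : inner ℝ (B - A) e₁ = 0) (h2 : inner ℝ (B - A) e₂ = 0) :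
    shadowPerimeter (convexHull ℝ {A, B, C, D}) e₁ e₂ =
      √(inner ℝ (C - A) e₁ ^ 2 + inner ℝ (C - A) e₂ ^ 2) +
      √(inner ℝ (D - A) e₁ ^ 2 + inner ℝ (D - A) e₂ ^ 2) +
      √(inner ℝ (C - D) e₁ ^ 2 + inner ℝ (C - D) e₂ ^ 2) := by
  rw [perim_osc]
  have hX : ∀ t, X e₁ e₂ B t = X e₁ e₂ A t := by
    intro t
    have := X_sub e₁ e₂ B A t
    rw [X, h1, h2] at this
    linarith
  have h3 : ∀ t, mx e₁ e₂ A B C D t - mn e₁ e₂ A B C D t =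
      (1 / 2) * (|X e₁ e₂ C t - X e₁ e₂ A t| + |X e₁ e₂ D t - X e₁ e₂ A t| +
        |X e₁ e₂ C t - X e₁ e₂ D t|) := by
    intro t
    rw [mx, mn, hX, osc3]
    ring
  simp only [h3]
  have c1 : ∀ P Q : E3, IntervalIntegrable (fun t => |X e₁ e₂ P t - X e₁ e₂ Q t|)
      MeasureTheory.volume 0 (2 * π) := fun P Q =>
    (((X_cont e₁ e₂ P).sub (X_cont e₁ e₂ Q)).abs).intervalIntegrable _ _
  rw [integral_const_mul, integral_add ((c1 C A).add (c1 D A)) (c1 C D),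
    integral_add (c1 C A) (c1 D A), integral_abs_X_sub, integral_abs_X_sub, integral_abs_X_sub]
  ring

/-- Lagrange's identity. -/
lemma lagrange (c0 c1 c2 d0 d1 d2 : ℝ) : (c0 ^ 2 + c1 ^ 2 + c2 ^ 2) * (d0 ^ 2 + d1 ^ 2 + d2 ^ 2) -
    (c0 * d0 + c1 * d1 + c2 * d2) ^ 2 =
    (c1 * d2 - c2 * d1) ^ 2 + ((c0 * d1 - c1 * d0) ^ 2 + (c0 * d2 - c2 * d0) ^ 2) := by ring

/-- Minkowski's inequality for two vectors with the same first coordinate. -/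
lemma mink (P m1 m2 n1 n2 : ℝ) : √(4 * P ^ 2 + ((m1 - n1) ^ 2 + (m2 - n2) ^ 2)) ≤
    √(P ^ 2 + (m1 ^ 2 + m2 ^ 2)) + √(P ^ 2 + (n1 ^ 2 + n2 ^ 2)) := by
  have e1 : √(P ^ 2 + (m1 ^ 2 + m2 ^ 2)) ^ 2 = P ^ 2 + (m1 ^ 2 + m2 ^ 2) :=
    Real.sq_sqrt (by positivity)
  have e2 : √(P ^ 2 + (n1 ^ 2 + n2 ^ 2)) ^ 2 = P ^ 2 + (n1 ^ 2 + n2 ^ 2) :=
    Real.sq_sqrt (by positivity)
  have e3 : P ^ 2 - (m1 * n1 + m2 * n2) ≤
      √(P ^ 2 + (m1 ^ 2 + m2 ^ 2)) * √(P ^ 2 + (n1 ^ 2 + n2 ^ 2)) := by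
    rw [← Real.sqrt_mul (by positivity)]
    refine Real.le_sqrt_of_sq_le ?_
    have : (P ^ 2 + (m1 ^ 2 + m2 ^ 2)) * (P ^ 2 + (n1 ^ 2 + n2 ^ 2)) -
        (P ^ 2 - (m1 * n1 + m2 * n2)) ^ 2 =
        (P * (m1 + n1)) ^ 2 + (P * (m2 + n2)) ^ 2 + (m1 * n2 - m2 * n1) ^ 2 := by ring
    have h := add_nonneg (add_nonneg (sq_nonneg (P * (m1 + n1))) (sq_nonneg (P * (m2 + n2))))
      (sq_nonneg (m1 * n2 - m2 * n1))
    linarith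
  refine Real.sqrt_le_iff.2 ⟨by positivity, ?_⟩
  rw [add_sq, e1, e2]
  nlinarith

/-- The analytic core: the tetrahedron `0, (l,0,0), c, d` with longest edge `(0, (l,0,0))`. -/
lemma core (r l c0 c1 c2 d0 d1 d2 : ℝ) (hr0 : 0 < r) (hr : r ^ 2 = 3) (hl : 0 < l)
    (hc : c0 ^ 2 + c1 ^ 2 + c2 ^ 2 ≤ l ^ 2) (hc' : (c0 - l) ^ 2 + c1 ^ 2 + c2 ^ 2 ≤ l ^ 2)
    (hd : d0 ^ 2 + d1 ^ 2 + d2 ^ 2 ≤ l ^ 2) (hd' : (d0 - l) ^ 2 + d1 ^ 2 + d2 ^ 2 ≤ l ^ 2)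
    (hcd : (c0 - d0) ^ 2 + (c1 - d1) ^ 2 + (c2 - d2) ^ 2 ≤ l ^ 2)
    (hne : 0 < c1 ^ 2 + c2 ^ 2) :
    (2 * r - 3) * (√(c1 ^ 2 + c2 ^ 2) + √(d1 ^ 2 + d2 ^ 2) +
      √((c1 - d1) ^ 2 + (c2 - d2) ^ 2)) ^ 2 ≤
      l * √(c1 ^ 2 + c2 ^ 2) + l * √(d1 ^ 2 + d2 ^ 2) +
        (√((c1 * d2 - c2 * d1) ^ 2 + ((c0 * d1 - c1 * d0) ^ 2 + (c0 * d2 - c2 * d0) ^ 2)) +
         √((c1 * d2 - c2 * d1) ^ 2 + (((c0 - l) * d1 - c1 * (d0 - l)) ^ 2 +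
          ((c0 - l) * d2 - c2 * (d0 - l)) ^ 2))) ∧
    ((2 * r - 3) * (√(c1 ^ 2 + c2 ^ 2) + √(d1 ^ 2 + d2 ^ 2) +
      √((c1 - d1) ^ 2 + (c2 - d2) ^ 2)) ^ 2 =
      l * √(c1 ^ 2 + c2 ^ 2) + l * √(d1 ^ 2 + d2 ^ 2) +
        (√((c1 * d2 - c2 * d1) ^ 2 + ((c0 * d1 - c1 * d0) ^ 2 + (c0 * d2 - c2 * d0) ^ 2)) +
         √((c1 * d2 - c2 * d1) ^ 2 + (((c0 - l) * d1 - c1 * (d0 - l)) ^ 2 +
          ((c0 - l) * d2 - c2 * (d0 - l)) ^ 2))) →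
      c0 ^ 2 + c1 ^ 2 + c2 ^ 2 = l ^ 2 ∧ (c0 - l) ^ 2 + c1 ^ 2 + c2 ^ 2 = l ^ 2 ∧
      d0 ^ 2 + d1 ^ 2 + d2 ^ 2 = l ^ 2 ∧ (d0 - l) ^ 2 + d1 ^ 2 + d2 ^ 2 = l ^ 2 ∧
      (c0 - d0) ^ 2 + (c1 - d1) ^ 2 + (c2 - d2) ^ 2 = l ^ 2) := by
  obtain ⟨a, ha⟩ : ∃ a, a = √(c1 ^ 2 + c2 ^ 2) := ⟨_, rfl⟩
  obtain ⟨b, hb⟩ : ∃ b, b = √(d1 ^ 2 + d2 ^ 2) := ⟨_, rfl⟩
  obtain ⟨w, hw⟩ : ∃ w, w = √((c1 - d1) ^ 2 + (c2 - d2) ^ 2) := ⟨_, rfl⟩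
  have ha2 : a ^ 2 = c1 ^ 2 + c2 ^ 2 := by rw [ha]; exact Real.sq_sqrt (by positivity)
  have hb2 : b ^ 2 = d1 ^ 2 + d2 ^ 2 := by rw [hb]; exact Real.sq_sqrt (by positivity)
  have hw2 : w ^ 2 = (c1 - d1) ^ 2 + (c2 - d2) ^ 2 := by rw [hw]; exact Real.sq_sqrt (by positivity)
  have ha0 : 0 < a := by rw [ha]; exact Real.sqrt_pos.2 hne
  have hb0 : 0 ≤ b := by rw [hb]; exact Real.sqrt_nonneg _
  have hw0 : 0 ≤ w := by rw [hw]; exact Real.sqrt_nonneg _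
  rw [← ha, ← hb, ← hw]
  obtain ⟨P, hP⟩ : ∃ P, P = c1 * d2 - c2 * d1 := ⟨_, rfl⟩
  have hmk := mink (c1 * d2 - c2 * d1) (c0 * d1 - c1 * d0) (c0 * d2 - c2 * d0)
    ((c0 - l) * d1 - c1 * (d0 - l)) ((c0 - l) * d2 - c2 * (d0 - l))
  have e1 : 4 * (c1 * d2 - c2 * d1) ^ 2 + ((c0 * d1 - c1 * d0 - ((c0 - l) * d1 - c1 * (d0 - l))) ^ 2 +
      (c0 * d2 - c2 * d0 - ((c0 - l) * d2 - c2 * (d0 - l))) ^ 2) =
      ((a + b) ^ 2 - w ^ 2) * (w ^ 2 - (a - b) ^ 2) + l ^ 2 * w ^ 2 := by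
    have : ((a + b) ^ 2 - w ^ 2) * (w ^ 2 - (a - b) ^ 2) =
        4 * a ^ 2 * b ^ 2 - (a ^ 2 + b ^ 2 - w ^ 2) ^ 2 := by ring
    rw [this, ha2, hb2, hw2]
    ring
  rw [e1] at hmk
  -- the constraints
  have k1 : 4 * a ^ 2 ≤ 3 * l ^ 2 := by
    rw [ha2]
    have := sq_nonneg (2 * c0 - l)
    have e : (2 * c0 - l) ^ 2 = 2 * c0 ^ 2 + 2 * (c0 - l) ^ 2 - l ^ 2 := by ring
    linarith
  have k2 : 4 * b ^ 2 ≤ 3 * l ^ 2 := by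
    rw [hb2]
    have := sq_nonneg (2 * d0 - l)
    have e : (2 * d0 - l) ^ 2 = 2 * d0 ^ 2 + 2 * (d0 - l) ^ 2 - l ^ 2 := by ring
    linarith
  have k3 : w ^ 2 ≤ l ^ 2 := by
    rw [hw2]
    have := sq_nonneg (c0 - d0)
    linarith
  have m1 : 2 * a ≤ r * l := by
    refine le_of_sq_le_sq ?_ (by positivity)
    rw [mul_pow, mul_pow, hr]
    linarith
  have m2 : 2 * b ≤ r * l := by
    refine le_of_sq_le_sq ?_ (by positivity)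
    rw [mul_pow, mul_pow, hr]
    linarith
  have m3 : w ≤ l := le_of_sq_le_sq k3 hl.le
  -- triangle inequalities
  have hP2 : (c1 * d1 + c2 * d2) ^ 2 ≤ (a * b) ^ 2 := by
    rw [mul_pow, ha2, hb2]
    have := sq_nonneg (c1 * d2 - c2 * d1)
    have e : (c1 ^ 2 + c2 ^ 2) * (d1 ^ 2 + d2 ^ 2) = (c1 * d1 + c2 * d2) ^ 2 +
      (c1 * d2 - c2 * d1) ^ 2 := by ring
    linarith
  have hP3 := abs_le_of_sq_le_sq' hP2 (mul_nonneg ha0.le hb0)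
  have t1 : w ≤ a + b := by
    refine le_of_sq_le_sq ?_ (by positivity)
    have : (a + b) ^ 2 = a ^ 2 + b ^ 2 + 2 * (a * b) := by ring
    have e : (c1 - d1) ^ 2 + (c2 - d2) ^ 2 = (c1 ^ 2 + c2 ^ 2) + (d1 ^ 2 + d2 ^ 2) -
      2 * (c1 * d1 + c2 * d2) := by ring
    rw [this, ha2, hb2, hw2, e]
    linarith [hP3.1]
  have t2 : (a - b) ^ 2 ≤ w ^ 2 := by
    have : (a - b) ^ 2 = a ^ 2 + b ^ 2 - 2 * (a * b) := by ring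
    have e : (c1 - d1) ^ 2 + (c2 - d2) ^ 2 = (c1 ^ 2 + c2 ^ 2) + (d1 ^ 2 + d2 ^ 2) -
      2 * (c1 * d1 + c2 * d2) := by ring
    rw [this, ha2, hb2, hw2, e]
    linarith [hP3.2]
  have t3 := abs_le_of_sq_le_sq' t2 hw0
  -- normalisation
  have hl' : l ≠ 0 := hl.ne'
  have hn := planar_norm r (a / l) (b / l) (w / l) hr0 hr (by positivity) (by positivity)
    (by positivity) (by rw [← mul_div_assoc, div_le_iff₀ hl]; exact m1)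
    (by rw [← mul_div_assoc, div_le_iff₀ hl]; exact m2) (by rw [div_le_one hl]; exact m3)
    (by rw [← add_div]; exact div_le_div_of_nonneg_right t1 hl.le)
    (by rw [← sub_div]; exact div_le_div_of_nonneg_right t3.2 hl.le)
    (by rw [← sub_div]; exact div_le_div_of_nonneg_right (by linarith [t3.1]) hl.le)
    (by positivity)
  have e2 : (((a / l + b / l) ^ 2 - (w / l) ^ 2) * ((w / l) ^ 2 - (a / l - b / l) ^ 2) +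
      (w / l) ^ 2) = (((a + b) ^ 2 - w ^ 2) * (w ^ 2 - (a - b) ^ 2) + l ^ 2 * w ^ 2) / (l ^ 2) ^ 2 := by
    field_simp
  have e3 : (2 * r - 3) * (a / l + b / l + w / l) ^ 2 = ((2 * r - 3) * (a + b + w) ^ 2) / l ^ 2 := by
    field_simp
  have e4 : a / l + b / l = (l * a + l * b) / l ^ 2 := by
    field_simp
  rw [e2, Real.sqrt_div' _ (by positivity), Real.sqrt_sq (by positivity), e3] at hn
  have hl2 : 0 < l ^ 2 := by positivity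
  obtain ⟨n1, n2⟩ := hn
  rw [e4, ← add_div, div_le_div_iff_of_pos_right hl2] at n1
  rw [e4, ← add_div, div_left_inj' hl2.ne'] at n2
  refine ⟨by linarith, fun heq => ?_⟩
  obtain ⟨q1, q2, q3⟩ := n2 (by linarith)
  rw [← mul_div_assoc, div_eq_iff hl'] at q1 q2
  rw [div_eq_one_iff_eq hl'] at q3
  have a1 : 4 * a ^ 2 = 3 * l ^ 2 := by
    have : (2 * a) ^ 2 = (r * l) ^ 2 := by rw [q1]
    rw [mul_pow, mul_pow, hr] at this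
    linarith
  have b1 : 4 * b ^ 2 = 3 * l ^ 2 := by
    have : (2 * b) ^ 2 = (r * l) ^ 2 := by rw [q2]
    rw [mul_pow, mul_pow, hr] at this
    linarith
  have w1 : w ^ 2 = l ^ 2 := by rw [q3]
  rw [ha2] at a1
  rw [hb2] at b1
  rw [hw2] at w1
  have z1 : 2 * c0 - l = 0 := by
    have e : (2 * c0 - l) ^ 2 = 2 * c0 ^ 2 + 2 * (c0 - l) ^ 2 - l ^ 2 := by ring
    have : (2 * c0 - l) ^ 2 ≤ 0 := by linarith
    exact pow_eq_zero_iff (two_ne_zero) |>.1 (le_antisymm this (sq_nonneg _))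
  have z2 : 2 * d0 - l = 0 := by
    have e : (2 * d0 - l) ^ 2 = 2 * d0 ^ 2 + 2 * (d0 - l) ^ 2 - l ^ 2 := by ring
    have : (2 * d0 - l) ^ 2 ≤ 0 := by linarith
    exact pow_eq_zero_iff (two_ne_zero) |>.1 (le_antisymm this (sq_nonneg _))
  have z3 : c0 = l / 2 := by linarith
  have z4 : d0 = l / 2 := by linarith
  rw [z3, z4]
  have g1 : (l / 2) ^ 2 = l ^ 2 / 4 := by ring
  have g2 : (l / 2 - l) ^ 2 = l ^ 2 / 4 := by ring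
  have g3 : (l / 2 - l / 2) ^ 2 = 0 := by ring
  refine ⟨?_, ?_, ?_, ?_, ?_⟩ <;> first | rw [g3] | rw [g2] | rw [g1]
  all_goals linarith

end San
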