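/-
MP_72c0ec_gt (Santalo's shadow perimeter inequality), helper94: the upper bound for tetrahedra.
-/
import Pool.Agent.H.MP_72c0ec_gt.Upper

set_option autoImplicit false

namespace San

open Real

lemma inner_coord (b : OrthonormalBasis (Fin 3) ℝ E3) (P Q : E3) :
    inner ℝ P Q = inner ℝ P (b 0) * inner ℝ Q (b 0) + inner ℝ P (b 1) * inner ℝ Q (b 1) +
      inner ℝ P (b 2) * inner ℝ Q (b 2) := by
  rw [← b.sum_inner_mul_inner P Q, Fin.sum_univ_three]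
  simp only [real_inner_comm Q]

lemma norm_coord (b : OrthonormalBasis (Fin 3) ℝ E3) (P : E3) :
    ‖P‖ ^ 2 = inner ℝ P (b 0) ^ 2 + inner ℝ P (b 1) ^ 2 + inner ℝ P (b 2) ^ 2 := by
  rw [← real_inner_self_eq_norm_sq, inner_coord b]
  ring

lemma exists_basis (u : E3) (hu : ‖u‖ = 1) : ∃ b : OrthonormalBasis (Fin 3) ℝ E3, b 0 = u := by
  have hv : Orthonormal ℝ (Set.domRestrict {0} (fun _ : Fin 3 => u)) := by
    constructor
    · intro i
      exact hu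
    · intro i j hij
      exact absurd (Subsingleton.elim i j) hij
  obtain ⟨b, hb⟩ := hv.exists_orthonormalBasis_extension_of_card_eq (by simp)
  exact ⟨b, hb 0 rfl⟩

lemma exists_basis2 (e₁ e₂ : E3) (h : Orthonormal ℝ ![e₁, e₂]) :
    ∃ b : OrthonormalBasis (Fin 3) ℝ E3, b 1 = e₁ ∧ b 2 = e₂ := by
  have h1 : ‖e₁‖ = 1 := h.1 0
  have h2 : ‖e₂‖ = 1 := h.1 1
  have h12 : inner ℝ e₁ e₂ = 0 := h.2 (i := 0) (j := 1) (by decide)
  have hv : Orthonormal ℝ (Set.domRestrict {1, 2} (![0, e₁, e₂] : Fin 3 → E3)) := by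
    constructor
    · rintro ⟨i, hi⟩
      rcases hi with rfl | hi
      · exact h1
      · rw [Set.mem_singleton_iff] at hi
        subst hi
        exact h2
    · rintro ⟨i, hi⟩ ⟨j, hj⟩ hij
      rcases hi with rfl | hi
      · rcases hj with rfl | hj
        · exact absurd rfl hij
        · rw [Set.mem_singleton_iff] at hj
          subst hj
          exact h12
      · rw [Set.mem_singleton_iff] at hi
        subst hi
        rcases hj with rfl | hj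
        · show inner ℝ e₂ e₁ = 0
          rw [real_inner_comm]
          exact h12
        · rw [Set.mem_singleton_iff] at hj
          subst hj
          exact absurd rfl hij
  obtain ⟨b, hb⟩ := hv.exists_orthonormalBasis_extension_of_card_eq (by simp)
  exact ⟨b, hb 1 (by simp), hb 2 (by simp)⟩

/-- the shadow along the longest edge. -/
theorem upper (A B C D : E3) (r : ℝ) (hr0 : 0 < r) (hr : r ^ 2 = 3) (hAB : A ≠ B)
    (hcol : ∀ c : ℝ, C - A ≠ c • (B - A))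
    (h1 : ‖C - A‖ ≤ ‖B - A‖) (h2 : ‖C - B‖ ≤ ‖B - A‖) (h3 : ‖D - A‖ ≤ ‖B - A‖)
    (h4 : ‖D - B‖ ≤ ‖B - A‖) (h5 : ‖C - D‖ ≤ ‖B - A‖) :
    ∃ e₁ e₂ : E3, Orthonormal ℝ ![e₁, e₂] ∧
      (2 * r - 3) * shadowPerimeter (convexHull ℝ {A, B, C, D}) e₁ e₂ ^ 2 ≤
        2 * (triArea A B C + triArea A B D + triArea A C D + triArea B C D) ∧
      ((2 * r - 3) * shadowPerimeter (convexHull ℝ {A, B, C, D}) e₁ e₂ ^ 2 =
        2 * (triArea A B C + triArea A B D + triArea A C D + triArea B C D) →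
        ‖C - A‖ = ‖B - A‖ ∧ ‖C - B‖ = ‖B - A‖ ∧ ‖D - A‖ = ‖B - A‖ ∧ ‖D - B‖ = ‖B - A‖ ∧
          ‖C - D‖ = ‖B - A‖) := by
  obtain ⟨l, hl⟩ : ∃ l, l = ‖B - A‖ := ⟨_, rfl⟩
  have hl0 : 0 < l := by
    rw [hl, norm_pos_iff]
    exact sub_ne_zero.2 hAB.symm
  obtain ⟨b, hb⟩ := exists_basis (l⁻¹ • (B - A)) (by
    rw [norm_smul, norm_inv, ← hl, Real.norm_of_nonneg hl0.le, inv_mul_cancel₀ hl0.ne'])
  have hBA : B - A = l • b 0 := by rw [hb, smul_smul, mul_inv_cancel₀ hl0.ne', one_smul]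
  have b00 : inner ℝ (b 0) (b 0) = (1:ℝ) := by
    rw [real_inner_self_eq_norm_sq, b.orthonormal.1 0]; norm_num
  have b01 : inner ℝ (b 0) (b 1) = (0:ℝ) := b.orthonormal.2 (by decide)
  have b02 : inner ℝ (b 0) (b 2) = (0:ℝ) := b.orthonormal.2 (by decide)
  have B0 : inner ℝ (B - A) (b 0) = l := by rw [hBA, real_inner_smul_left, b00, mul_one]
  have B1 : inner ℝ (B - A) (b 1) = 0 := by rw [hBA, real_inner_smul_left, b01, mul_zero]
  have B2 : inner ℝ (B - A) (b 2) = 0 := by rw [hBA, real_inner_smul_left, b02, mul_zero]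
  obtain ⟨c0, hc0⟩ : ∃ c0, c0 = inner ℝ (C - A) (b 0) := ⟨_, rfl⟩
  obtain ⟨c1, hc1⟩ : ∃ c1, c1 = inner ℝ (C - A) (b 1) := ⟨_, rfl⟩
  obtain ⟨c2, hc2⟩ : ∃ c2, c2 = inner ℝ (C - A) (b 2) := ⟨_, rfl⟩
  obtain ⟨d0, hd0⟩ : ∃ d0, d0 = inner ℝ (D - A) (b 0) := ⟨_, rfl⟩
  obtain ⟨d1, hd1⟩ : ∃ d1, d1 = inner ℝ (D - A) (b 1) := ⟨_, rfl⟩
  obtain ⟨d2, hd2⟩ : ∃ d2, d2 = inner ℝ (D - A) (b 2) := ⟨_, rfl⟩
  have CB0 : inner ℝ (C - B) (b 0) = c0 - l := by
    rw [show C - B = (C - A) - (B - A) by abel, inner_sub_left, B0, hc0]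
  have CB1 : inner ℝ (C - B) (b 1) = c1 := by
    rw [show C - B = (C - A) - (B - A) by abel, inner_sub_left, B1, hc1, sub_zero]
  have CB2 : inner ℝ (C - B) (b 2) = c2 := by
    rw [show C - B = (C - A) - (B - A) by abel, inner_sub_left, B2, hc2, sub_zero]
  have DB0 : inner ℝ (D - B) (b 0) = d0 - l := by
    rw [show D - B = (D - A) - (B - A) by abel, inner_sub_left, B0, hd0]
  have DB1 : inner ℝ (D - B) (b 1) = d1 := by
    rw [show D - B = (D - A) - (B - A) by abel, inner_sub_left, B1, hd1, sub_zero]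
  have DB2 : inner ℝ (D - B) (b 2) = d2 := by
    rw [show D - B = (D - A) - (B - A) by abel, inner_sub_left, B2, hd2, sub_zero]
  have CD0 : inner ℝ (C - D) (b 0) = c0 - d0 := by
    rw [show C - D = (C - A) - (D - A) by abel, inner_sub_left, hc0, hd0]
  have CD1 : inner ℝ (C - D) (b 1) = c1 - d1 := by
    rw [show C - D = (C - A) - (D - A) by abel, inner_sub_left, hc1, hd1]
  have CD2 : inner ℝ (C - D) (b 2) = c2 - d2 := by
    rw [show C - D = (C - A) - (D - A) by abel, inner_sub_left, hc2, hd2]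
  have nCA : ‖C - A‖ ^ 2 = c0 ^ 2 + c1 ^ 2 + c2 ^ 2 := by rw [norm_coord b, hc0, hc1, hc2]
  have nDA : ‖D - A‖ ^ 2 = d0 ^ 2 + d1 ^ 2 + d2 ^ 2 := by rw [norm_coord b, hd0, hd1, hd2]
  have nCB : ‖C - B‖ ^ 2 = (c0 - l) ^ 2 + c1 ^ 2 + c2 ^ 2 := by rw [norm_coord b, CB0, CB1, CB2]
  have nDB : ‖D - B‖ ^ 2 = (d0 - l) ^ 2 + d1 ^ 2 + d2 ^ 2 := by rw [norm_coord b, DB0, DB1, DB2]
  have nCD : ‖C - D‖ ^ 2 = (c0 - d0) ^ 2 + (c1 - d1) ^ 2 + (c2 - d2) ^ 2 := by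
    rw [norm_coord b, CD0, CD1, CD2]
  have hne : 0 < c1 ^ 2 + c2 ^ 2 := by
    by_contra hcon
    have hz0 : c1 ^ 2 + c2 ^ 2 = 0 := le_antisymm (not_lt.1 hcon) (by positivity)
    have s1 := sq_nonneg c1
    have s2 := sq_nonneg c2
    have hc1' : c1 = 0 := pow_eq_zero_iff (two_ne_zero) |>.1 (by linarith only [hz0, s1, s2])
    have hc2' : c2 = 0 := pow_eq_zero_iff (two_ne_zero) |>.1 (by linarith only [hz0, s1, s2])
    apply hcol (c0 / l)
    have hz : ‖C - A - (c0 / l) • (B - A)‖ ^ 2 = 0 := by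
      rw [norm_coord b]
      simp only [inner_sub_left, real_inner_smul_left]
      have q0 : inner ℝ C (b 0) - inner ℝ A (b 0) = c0 := by rw [hc0, inner_sub_left]
      have q1 : inner ℝ C (b 1) - inner ℝ A (b 1) = 0 := by rw [← hc1', hc1, inner_sub_left]
      have q2 : inner ℝ C (b 2) - inner ℝ A (b 2) = 0 := by rw [← hc2', hc2, inner_sub_left]
      rw [inner_sub_left] at B0 B1 B2
      rw [q0, q1, q2, B0, B1, B2]
      field_simp
      ring
    have := norm_eq_zero.1 (pow_eq_zero_iff (two_ne_zero) |>.1 hz)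
    exact sub_eq_zero.1 this
  -- areas
  have aABC : triArea A B C = l * √(c1 ^ 2 + c2 ^ 2) / 2 := by
    rw [triArea, ← hl, nCA, inner_coord b, B0, B1, B2, ← hc0,
      show l ^ 2 * (c0 ^ 2 + c1 ^ 2 + c2 ^ 2) - (l * c0 + 0 * inner ℝ (C - A) (b 1) +
        0 * inner ℝ (C - A) (b 2)) ^ 2 = l ^ 2 * (c1 ^ 2 + c2 ^ 2) by ring,
      Real.sqrt_mul (by positivity), Real.sqrt_sq hl0.le]
  have aABD : triArea A B D = l * √(d1 ^ 2 + d2 ^ 2) / 2 := by
    rw [triArea, ← hl, nDA, inner_coord b, B0, B1, B2, ← hd0,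
      show l ^ 2 * (d0 ^ 2 + d1 ^ 2 + d2 ^ 2) - (l * d0 + 0 * inner ℝ (D - A) (b 1) +
        0 * inner ℝ (D - A) (b 2)) ^ 2 = l ^ 2 * (d1 ^ 2 + d2 ^ 2) by ring,
      Real.sqrt_mul (by positivity), Real.sqrt_sq hl0.le]
  have aACD : triArea A C D = √((c1 * d2 - c2 * d1) ^ 2 +
      ((c0 * d1 - c1 * d0) ^ 2 + (c0 * d2 - c2 * d0) ^ 2)) / 2 := by
    rw [triArea, nCA, nDA, inner_coord b, ← hc0, ← hc1, ← hc2, ← hd0, ← hd1, ← hd2, lagrange]
  have aBCD : triArea B C D = √((c1 * d2 - c2 * d1) ^ 2 +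
      (((c0 - l) * d1 - c1 * (d0 - l)) ^ 2 + ((c0 - l) * d2 - c2 * (d0 - l)) ^ 2)) / 2 := by
    rw [triArea, nCB, nDB, inner_coord b, CB0, CB1, CB2, DB0, DB1, DB2, lagrange]
  have hper := perim_edge (b 1) (b 2) A B C D B1 B2
  rw [← hc1, ← hc2, ← hd1, ← hd2, CD1, CD2] at hper
  have hsq : ∀ x : ℝ, 0 ≤ x → x ≤ ‖B - A‖ → x ^ 2 ≤ l ^ 2 := by
    intro x hx hx2
    rw [hl]
    exact pow_le_pow_left₀ hx hx2 2
  obtain ⟨k1, k2⟩ := core r l c0 c1 c2 d0 d1 d2 hr0 hr hl0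
    (by rw [← nCA]; exact hsq _ (norm_nonneg _) h1) (by rw [← nCB]; exact hsq _ (norm_nonneg _) h2)
    (by rw [← nDA]; exact hsq _ (norm_nonneg _) h3) (by rw [← nDB]; exact hsq _ (norm_nonneg _) h4)
    (by rw [← nCD]; exact hsq _ (norm_nonneg _) h5) hne
  refine ⟨b 1, b 2, ?_, ?_, ?_⟩
  · constructor
    · intro i
      fin_cases i
      · exact b.orthonormal.1 1
      · exact b.orthonormal.1 2
    · intro i j hij
      fin_cases i <;> fin_cases j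
      · exact absurd rfl hij
      · exact b.orthonormal.2 (show (1 : Fin 3) ≠ 2 by decide)
      · exact b.orthonormal.2 (show (2 : Fin 3) ≠ 1 by decide)
      · exact absurd rfl hij
  · rw [hper, aABC, aABD, aACD, aBCD]
    linarith
  · intro heq
    rw [hper, aABC, aABD, aACD, aBCD] at heq
    obtain ⟨m1, m2, m3, m4, m5⟩ := k2 (by linarith)
    rw [← nCA] at m1
    rw [← nCB] at m2
    rw [← nDA] at m3
    rw [← nDB] at m4
    rw [← nCD] at m5
    rw [← hl]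
    have hroot : ∀ x : ℝ, 0 ≤ x → x ^ 2 = l ^ 2 → x = l := fun x hx h =>
      (pow_left_inj₀ hx hl0.le two_ne_zero).1 h
    exact ⟨hroot _ (norm_nonneg _) m1, hroot _ (norm_nonneg _) m2, hroot _ (norm_nonneg _) m3,
      hroot _ (norm_nonneg _) m4, hroot _ (norm_nonneg _) m5⟩

end San
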