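/-
MP_72c0ec_gt (Santalo's shadow perimeter inequality), helper94: the numerical inequalities for the
shadows of the regular tetrahedron.
-/
import Mathlib

set_option autoImplicit false

namespace San

/-- one pair of opposite sides of a quadrangular shadow. -/
lemma pair_bound (p q : ℝ) (hp : p ^ 2 ≤ 1) (hq : q ^ 2 ≤ 1) (σ A A' : ℝ) (hA : 0 ≤ A)
    (hA' : 0 ≤ A') (h1 : p + q = 2 * σ) (h2 : (p - q) ^ 2 = 4 * A)
    (h3 : A + A' = 1 / 2 - σ ^ 2) :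
    4 * ((1 - σ ^ 2) - 2 * A) ≤ (√(1 - p ^ 2) + √(1 - q ^ 2)) ^ 2 := by
  have e1 : √(1 - p ^ 2) ^ 2 = 1 - p ^ 2 := Real.sq_sqrt (by linarith)
  have e2 : √(1 - q ^ 2) ^ 2 = 1 - q ^ 2 := Real.sq_sqrt (by linarith)
  have e3 : √(1 - p ^ 2) * √(1 - q ^ 2) = √((1 - p ^ 2) * (1 - q ^ 2)) :=
    (Real.sqrt_mul (by linarith) _).symm
  have hσ : σ = (p + q) / 2 := by linarith
  have hAe : A = (p - q) ^ 2 / 4 := by linarith
  have e4 : (1 - p ^ 2) * (1 - q ^ 2) = ((1 - σ ^ 2) - 3 * A) ^ 2 + 8 * (A * A') := by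
    have : A' = 1 / 2 - σ ^ 2 - A := by linarith
    rw [this, hσ, hAe]
    ring
  have e5 : (1 - σ ^ 2) - 3 * A ≤ √((1 - p ^ 2) * (1 - q ^ 2)) := by
    refine Real.le_sqrt_of_sq_le ?_
    rw [e4]
    have := mul_nonneg hA hA'
    linarith
  have e6 : p ^ 2 + q ^ 2 = 2 * σ ^ 2 + 2 * A := by
    rw [hσ, hAe]
    ring
  have e7 : (√(1 - p ^ 2) + √(1 - q ^ 2)) ^ 2 =
      √(1 - p ^ 2) ^ 2 + √(1 - q ^ 2) ^ 2 + 2 * (√(1 - p ^ 2) * √(1 - q ^ 2)) := by ring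
  rw [e7, e1, e2, e3]
  linarith

/-- quadrangular shadows. -/
lemma quad_bound (r a b c d : ℝ) (hr0 : 0 < r) (hr : r ^ 2 = 3) (ha : 0 ≤ a) (hb : 0 ≤ b)
    (hc : 0 ≤ c) (hd : 0 ≤ d) (h : a + b = c + d) (hs : a ^ 2 + b ^ 2 + c ^ 2 + d ^ 2 = 1 / 2) :
    1 + r ≤ √(1 - (a + c) ^ 2) + √(1 - (c + b) ^ 2) + √(1 - (b + d) ^ 2) + √(1 - (d + a) ^ 2) := by
  have hσ : 1 / 4 ≤ (a + b) ^ 2 := by
    have h1 : c ^ 2 + d ^ 2 ≤ (a + b) ^ 2 := by rw [h]; nlinarith [mul_nonneg hc hd]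
    nlinarith [mul_nonneg ha hb]
  set A1 := ((a + c) - (b + d)) ^ 2 / 4 with hA1
  set A2 := ((d + a) - (c + b)) ^ 2 / 4 with hA2
  have hA1n : 0 ≤ A1 := by positivity
  have hA2n : 0 ≤ A2 := by positivity
  have hd' : d = a + b - c := by linarith
  have hA : A1 + A2 = 1 / 2 - (a + b) ^ 2 := by
    rw [hA1, hA2, ← hs, hd']
    ring
  have b1 : (a + c) ^ 2 ≤ 1 := by nlinarith [sq_nonneg (a - c), sq_nonneg b, sq_nonneg d]
  have b2 : (b + d) ^ 2 ≤ 1 := by nlinarith [sq_nonneg (b - d), sq_nonneg a, sq_nonneg c]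
  have b3 : (d + a) ^ 2 ≤ 1 := by nlinarith [sq_nonneg (d - a), sq_nonneg b, sq_nonneg c]
  have b4 : (c + b) ^ 2 ≤ 1 := by nlinarith [sq_nonneg (c - b), sq_nonneg a, sq_nonneg d]
  have f1 := pair_bound (a + c) (b + d) b1 b2 (a + b) A1 A2 hA1n hA2n (by linarith)
    (by rw [hA1]; ring) hA
  have f2 := pair_bound (d + a) (c + b) b3 b4 (a + b) A2 A1 hA2n hA1n (by linarith)
    (by rw [hA2]; ring) (by linarith)
  set X1 := (1 - (a + b) ^ 2) - 2 * A1 with hX1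
  set X2 := (1 - (a + b) ^ 2) - 2 * A2 with hX2
  have hX : X1 + X2 = 1 := by rw [hX1, hX2]; linarith
  have hX1a : 1 / 4 ≤ X1 := by rw [hX1]; linarith
  have hX2a : 1 / 4 ≤ X2 := by rw [hX2]; linarith
  have g1 : 2 * √X1 ≤ √(1 - (a + c) ^ 2) + √(1 - (b + d) ^ 2) := by
    have e : 2 * √X1 = √(4 * X1) := by
      rw [Real.sqrt_mul (by norm_num), show (4:ℝ) = 2 ^ 2 by norm_num,
        Real.sqrt_sq (by norm_num)]
    rw [e]
    exact (Real.sqrt_le_left (by positivity)).2 f1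
  have g2 : 2 * √X2 ≤ √(1 - (d + a) ^ 2) + √(1 - (c + b) ^ 2) := by
    have e : 2 * √X2 = √(4 * X2) := by
      rw [Real.sqrt_mul (by norm_num), show (4:ℝ) = 2 ^ 2 by norm_num,
        Real.sqrt_sq (by norm_num)]
    rw [e]
    exact (Real.sqrt_le_left (by positivity)).2 f2
  have g3 : (1 + r) / 2 ≤ √X1 + √X2 := by
    have hX12 : 3 / 16 ≤ X1 * X2 := by
      have h5 := mul_nonneg (sub_nonneg.2 hX1a) (sub_nonneg.2 hX2a)
      have h6 : (X1 - 1 / 4) * (X2 - 1 / 4) = X1 * X2 - (X1 + X2) / 4 + 1 / 16 := by ring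
      rw [h6, hX] at h5
      linarith
    have e1 : √X1 ^ 2 = X1 := Real.sq_sqrt (by linarith)
    have e2 : √X2 ^ 2 = X2 := Real.sq_sqrt (by linarith)
    have e3 : √X1 * √X2 = √(X1 * X2) := (Real.sqrt_mul (by linarith) _).symm
    have e4 : r / 4 ≤ √(X1 * X2) := by
      refine Real.le_sqrt_of_sq_le ?_
      rw [div_pow, hr]
      linarith
    refine le_of_sq_le_sq ?_ (by positivity)
    have e5 : (√X1 + √X2) ^ 2 = √X1 ^ 2 + √X2 ^ 2 + 2 * (√X1 * √X2) := by ring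
    rw [e5, e1, e2, e3, div_pow]
    have : (1 + r) ^ 2 = 4 + 2 * r := by
      have : (1 + r) ^ 2 = 1 + 2 * r + r ^ 2 := by ring
      rw [this, hr]; ring
    rw [this]
    linarith
  linarith

/-- one side of a triangular shadow. -/
lemma side_bound (r x : ℝ) (hr0 : 0 < r) (hr : r ^ 2 = 3) (hx0 : 0 ≤ x) (hx : x ≤ 1 / 4) :
    1 - (4 - 2 * r) * x ≤ √(1 - x) := by
  refine Real.le_sqrt_of_sq_le ?_
  have h1 : r < 2 := by nlinarith
  have h2 : 1.7 < r := by nlinarith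
  have e : 1 - x - (1 - (4 - 2 * r) * x) ^ 2 =
      x * ((7 - 4 * r) - (28 - 16 * r) * x) + (12 - 4 * r ^ 2) * x ^ 2 := by ring
  have h3 : (7 - 4 * r) - (28 - 16 * r) * x = (7 - 4 * r) * (1 - 4 * x) := by ring
  have h4 : 0 ≤ 7 - 4 * r := by nlinarith
  have h5 : 0 ≤ x * ((7 - 4 * r) * (1 - 4 * x)) :=
    mul_nonneg hx0 (mul_nonneg h4 (by linarith))
  rw [h3, hr] at e
  linarith

/-- triangular shadows. -/
lemma tri_bound (r a b c : ℝ) (hr0 : 0 < r) (hr : r ^ 2 = 3) (ha : 0 ≤ a) (hb : 0 ≤ b)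
    (hc : 0 ≤ c) (hs : (a + b + c) ^ 2 + a ^ 2 + b ^ 2 + c ^ 2 = 1 / 2) :
    1 + r ≤ √(1 - (a - b) ^ 2) + √(1 - (b - c) ^ 2) + √(1 - (c - a) ^ 2) := by
  have h1 : r < 2 := by nlinarith
  have hab := mul_nonneg ha hb
  have hbc := mul_nonneg hb hc
  have hca := mul_nonneg hc ha
  have k1 : (a - b) ^ 2 ≤ 1 / 4 := by nlinarith
  have k2 : (b - c) ^ 2 ≤ 1 / 4 := by nlinarith
  have k3 : (c - a) ^ 2 ≤ 1 / 4 := by nlinarith
  have s1 := side_bound r _ hr0 hr (sq_nonneg _) k1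
  have s2 := side_bound r _ hr0 hr (sq_nonneg _) k2
  have s3 := side_bound r _ hr0 hr (sq_nonneg _) k3
  have k4 : (a - b) ^ 2 + (b - c) ^ 2 + (c - a) ^ 2 ≤ 1 / 2 := by nlinarith
  have k5 := mul_le_mul_of_nonneg_left k4 (show 0 ≤ 4 - 2 * r by linarith)
  linarith

end San
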