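/-
MP_72c0ec_gt (Santalo's shadow perimeter inequality), helper94: the shadows of the regular
tetrahedron.
-/
import Pool.Agent.H.MP_72c0ec_gt.Main
import Pool.Agent.H.MP_72c0ec_gt.Numeric

set_option autoImplicit false

namespace San

open Real intervalIntegral

/-- the vertices of a regular tetrahedron form a tight frame. -/
lemma frame (a0 a1 a2 b0 b1 b2 c0 c1 c2 d0 d1 d2 L : ℝ) (s0 : a0 + b0 + c0 + d0 = 0)
    (s1 : a1 + b1 + c1 + d1 = 0) (s2 : a2 + b2 + c2 + d2 = 0)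
    (hab : (a0 - b0) ^ 2 + (a1 - b1) ^ 2 + (a2 - b2) ^ 2 = L)
    (hac : (a0 - c0) ^ 2 + (a1 - c1) ^ 2 + (a2 - c2) ^ 2 = L)
    (had : (a0 - d0) ^ 2 + (a1 - d1) ^ 2 + (a2 - d2) ^ 2 = L)
    (hbc : (b0 - c0) ^ 2 + (b1 - c1) ^ 2 + (b2 - c2) ^ 2 = L)
    (hbd : (b0 - d0) ^ 2 + (b1 - d1) ^ 2 + (b2 - d2) ^ 2 = L)
    (hcd : (c0 - d0) ^ 2 + (c1 - d1) ^ 2 + (c2 - d2) ^ 2 = L) :
    a0 ^ 2 + b0 ^ 2 + c0 ^ 2 + d0 ^ 2 = L / 2 ∧ a0 * a1 + b0 * b1 + c0 * c1 + d0 * d1 = 0 ∧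
      a0 * a2 + b0 * b2 + c0 * c2 + d0 * d2 = 0 := by
  obtain ⟨na, hna⟩ : ∃ na, na = a0 ^ 2 + a1 ^ 2 + a2 ^ 2 := ⟨_, rfl⟩
  obtain ⟨nb, hnb⟩ : ∃ nb, nb = b0 ^ 2 + b1 ^ 2 + b2 ^ 2 := ⟨_, rfl⟩
  obtain ⟨nc, hnc⟩ : ∃ nc, nc = c0 ^ 2 + c1 ^ 2 + c2 ^ 2 := ⟨_, rfl⟩
  obtain ⟨nd, hnd⟩ : ∃ nd, nd = d0 ^ 2 + d1 ^ 2 + d2 ^ 2 := ⟨_, rfl⟩
  obtain ⟨gab, gab'⟩ : ∃ g, g = a0 * b0 + a1 * b1 + a2 * b2 := ⟨_, rfl⟩
  obtain ⟨gac, gac'⟩ : ∃ g, g = a0 * c0 + a1 * c1 + a2 * c2 := ⟨_, rfl⟩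
  obtain ⟨gad, gad'⟩ : ∃ g, g = a0 * d0 + a1 * d1 + a2 * d2 := ⟨_, rfl⟩
  obtain ⟨gbc, gbc'⟩ : ∃ g, g = b0 * c0 + b1 * c1 + b2 * c2 := ⟨_, rfl⟩
  obtain ⟨gbd, gbd'⟩ : ∃ g, g = b0 * d0 + b1 * d1 + b2 * d2 := ⟨_, rfl⟩
  obtain ⟨gcd, gcd'⟩ : ∃ g, g = c0 * d0 + c1 * d1 + c2 * d2 := ⟨_, rfl⟩
  have l1 : na + nb - 2 * gab = L := by rw [hna, hnb, gab', ← hab]; ring
  have l2 : na + nc - 2 * gac = L := by rw [hna, hnc, gac', ← hac]; ring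
  have l3 : na + nd - 2 * gad = L := by rw [hna, hnd, gad', ← had]; ring
  have l4 : nb + nc - 2 * gbc = L := by rw [hnb, hnc, gbc', ← hbc]; ring
  have l5 : nb + nd - 2 * gbd = L := by rw [hnb, hnd, gbd', ← hbd]; ring
  have l6 : nc + nd - 2 * gcd = L := by rw [hnc, hnd, gcd', ← hcd]; ring
  have z1 : na + gab + gac + gad = 0 := by
    have : na + gab + gac + gad = a0 * (a0 + b0 + c0 + d0) + a1 * (a1 + b1 + c1 + d1) +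
      a2 * (a2 + b2 + c2 + d2) := by rw [hna, gab', gac', gad']; ring
    rw [this, s0, s1, s2]; ring
  have z2 : nb + gab + gbc + gbd = 0 := by
    have : nb + gab + gbc + gbd = b0 * (a0 + b0 + c0 + d0) + b1 * (a1 + b1 + c1 + d1) +
      b2 * (a2 + b2 + c2 + d2) := by rw [hnb, gab', gbc', gbd']; ring
    rw [this, s0, s1, s2]; ring
  have z3 : nc + gac + gbc + gcd = 0 := by
    have : nc + gac + gbc + gcd = c0 * (a0 + b0 + c0 + d0) + c1 * (a1 + b1 + c1 + d1) +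
      c2 * (a2 + b2 + c2 + d2) := by rw [hnc, gac', gbc', gcd']; ring
    rw [this, s0, s1, s2]; ring
  have z4 : nd + gad + gbd + gcd = 0 := by
    have : nd + gad + gbd + gcd = d0 * (a0 + b0 + c0 + d0) + d1 * (a1 + b1 + c1 + d1) +
      d2 * (a2 + b2 + c2 + d2) := by rw [hnd, gad', gbd', gcd']; ring
    rw [this, s0, s1, s2]; ring
  have va : na = 3 * L / 8 := by linarith
  have vb : nb = 3 * L / 8 := by linarith
  have vc : nc = 3 * L / 8 := by linarith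
  have vd : nd = 3 * L / 8 := by linarith
  have wab : gab = -L / 8 := by linarith
  have wac : gac = -L / 8 := by linarith
  have wad : gad = -L / 8 := by linarith
  have wbc : gbc = -L / 8 := by linarith
  have wbd : gbd = -L / 8 := by linarith
  have wcd : gcd = -L / 8 := by linarith
  have key : (a0 ^ 2 + b0 ^ 2 + c0 ^ 2 + d0 ^ 2 - L / 2) ^ 2 +
      (a1 ^ 2 + b1 ^ 2 + c1 ^ 2 + d1 ^ 2 - L / 2) ^ 2 +
      (a2 ^ 2 + b2 ^ 2 + c2 ^ 2 + d2 ^ 2 - L / 2) ^ 2 +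
      2 * (a0 * a1 + b0 * b1 + c0 * c1 + d0 * d1) ^ 2 +
      2 * (a0 * a2 + b0 * b2 + c0 * c2 + d0 * d2) ^ 2 +
      2 * (a1 * a2 + b1 * b2 + c1 * c2 + d1 * d2) ^ 2 =
      na ^ 2 + nb ^ 2 + nc ^ 2 + nd ^ 2 + 2 * (gab ^ 2 + gac ^ 2 + gad ^ 2 + gbc ^ 2 + gbd ^ 2 +
        gcd ^ 2) - L * (na + nb + nc + nd) + 3 * L ^ 2 / 4 := by
    rw [hna, hnb, hnc, hnd, gab', gac', gad', gbc', gbd', gcd']
    ring
  have key2 : (a0 ^ 2 + b0 ^ 2 + c0 ^ 2 + d0 ^ 2 - L / 2) ^ 2 +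
      (a1 ^ 2 + b1 ^ 2 + c1 ^ 2 + d1 ^ 2 - L / 2) ^ 2 +
      (a2 ^ 2 + b2 ^ 2 + c2 ^ 2 + d2 ^ 2 - L / 2) ^ 2 +
      2 * (a0 * a1 + b0 * b1 + c0 * c1 + d0 * d1) ^ 2 +
      2 * (a0 * a2 + b0 * b2 + c0 * c2 + d0 * d2) ^ 2 +
      2 * (a1 * a2 + b1 * b2 + c1 * c2 + d1 * d2) ^ 2 = 0 := by
    rw [key, va, vb, vc, vd, wab, wac, wad, wbc, wbd, wcd]
    ring
  have p1 := sq_nonneg (a0 ^ 2 + b0 ^ 2 + c0 ^ 2 + d0 ^ 2 - L / 2)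
  have p2 := sq_nonneg (a1 ^ 2 + b1 ^ 2 + c1 ^ 2 + d1 ^ 2 - L / 2)
  have p3 := sq_nonneg (a2 ^ 2 + b2 ^ 2 + c2 ^ 2 + d2 ^ 2 - L / 2)
  have p4 := sq_nonneg (a0 * a1 + b0 * b1 + c0 * c1 + d0 * d1)
  have p5 := sq_nonneg (a0 * a2 + b0 * b2 + c0 * c2 + d0 * d2)
  have p6 := sq_nonneg (a1 * a2 + b1 * b2 + c1 * c2 + d1 * d2)
  refine ⟨?_, ?_, ?_⟩
  · exact sub_eq_zero.1 (pow_eq_zero_iff (two_ne_zero) |>.1
      (by linarith only [key2, p1, p2, p3, p4, p5, p6]))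
  · exact pow_eq_zero_iff (two_ne_zero) |>.1 (by linarith only [key2, p1, p2, p3, p4, p5, p6])
  · exact pow_eq_zero_iff (two_ne_zero) |>.1 (by linarith only [key2, p1, p2, p3, p4, p5, p6])

lemma side_len (l s x y : ℝ) (hl : 0 < l) (h : s ^ 2 + x ^ 2 + y ^ 2 = l ^ 2) :
    √(x ^ 2 + y ^ 2) = l * √(1 - (s / l) ^ 2) := by
  have : x ^ 2 + y ^ 2 = l ^ 2 * (1 - (s / l) ^ 2) := by
    field_simp
    linarith
  rw [this, Real.sqrt_mul (by positivity), Real.sqrt_sq hl.le]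

/-- quadrangular shadows. -/
lemma core22 (r l : ℝ) (hr0 : 0 < r) (hr : r ^ 2 = 3) (hl : 0 < l) (e₁ e₂ A B C D : E3)
    (M m : ℝ → ℝ) (hMc : Continuous M) (hmc : Continuous m)
    (hM : ∀ t, X e₁ e₂ A t ≤ M t ∧ X e₁ e₂ B t ≤ M t ∧ X e₁ e₂ C t ≤ M t ∧ X e₁ e₂ D t ≤ M t)
    (hm : ∀ t, m t ≤ X e₁ e₂ A t ∧ m t ≤ X e₁ e₂ B t ∧ m t ≤ X e₁ e₂ C t ∧ m t ≤ X e₁ e₂ D t)
    (α β γ δ : ℝ) (hα : 0 ≤ α) (hβ : 0 ≤ β) (hγ : 0 ≤ γ) (hδ : 0 ≤ δ) (hs : α + β = γ + δ)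
    (hq : α ^ 2 + β ^ 2 + γ ^ 2 + δ ^ 2 = l ^ 2 / 2)
    (hx : α * inner ℝ A e₁ + β * inner ℝ B e₁ = γ * inner ℝ C e₁ + δ * inner ℝ D e₁)
    (hy : α * inner ℝ A e₂ + β * inner ℝ B e₂ = γ * inner ℝ C e₂ + δ * inner ℝ D e₂)
    (dAC : (α + γ) ^ 2 + inner ℝ (A - C) e₁ ^ 2 + inner ℝ (A - C) e₂ ^ 2 = l ^ 2)
    (dCB : (γ + β) ^ 2 + inner ℝ (C - B) e₁ ^ 2 + inner ℝ (C - B) e₂ ^ 2 = l ^ 2)
    (dBD : (β + δ) ^ 2 + inner ℝ (B - D) e₁ ^ 2 + inner ℝ (B - D) e₂ ^ 2 = l ^ 2)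
    (dDA : (δ + α) ^ 2 + inner ℝ (D - A) e₁ ^ 2 + inner ℝ (D - A) e₂ ^ 2 = l ^ 2) :
    (1 + r) * l ≤ (1 / 2) * ∫ t in (0:ℝ)..(2 * π), (M t - m t) := by
  have hpos : 0 < α + β := by
    by_contra hcon
    have h0 : α + β = 0 := le_antisymm (not_lt.1 hcon) (add_nonneg hα hβ)
    have h1 : α = 0 := by linarith
    have h2 : β = 0 := by linarith
    have h3 : γ = 0 := by linarith
    have h4 : δ = 0 := by linarith
    rw [h1, h2, h3, h4] at hq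
    have : 0 < l ^ 2 := by positivity
    linarith
  have hpt : ∀ t, (1 / 2) * (|X e₁ e₂ A t - X e₁ e₂ C t| + |X e₁ e₂ C t - X e₁ e₂ B t| +
      |X e₁ e₂ B t - X e₁ e₂ D t| + |X e₁ e₂ D t - X e₁ e₂ A t|) ≤ M t - m t := by
    intro t
    have hrel : α * X e₁ e₂ A t + β * X e₁ e₂ B t = γ * X e₁ e₂ C t + δ * X e₁ e₂ D t := by
      simp only [X]
      have e1 : α * (inner ℝ A e₁ * cos t + inner ℝ A e₂ * sin t) +
          β * (inner ℝ B e₁ * cos t + inner ℝ B e₂ * sin t) =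
          (α * inner ℝ A e₁ + β * inner ℝ B e₁) * cos t +
          (α * inner ℝ A e₂ + β * inner ℝ B e₂) * sin t := by ring
      rw [e1, hx, hy]
      ring
    obtain ⟨m1, m2, m3, m4⟩ := hM t
    obtain ⟨k1, k2, k3, k4⟩ := hm t
    have c1 := crossed _ _ _ _ α β γ δ hα hβ hγ hδ hs hpos hrel
    have c2 := crossed _ _ _ _ γ δ α β hγ hδ hα hβ hs.symm (by linarith) hrel.symm
    have := osc4 _ _ _ _ _ _ m1 m2 m3 m4 k1 k2 k3 k4 c1 c2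
    linarith
  have c1 : ∀ P Q : E3, IntervalIntegrable (fun t => |X e₁ e₂ P t - X e₁ e₂ Q t|)
      MeasureTheory.volume 0 (2 * π) := fun P Q =>
    (((X_cont e₁ e₂ P).sub (X_cont e₁ e₂ Q)).abs).intervalIntegrable _ _
  have hint : ∫ t in (0:ℝ)..(2 * π), (1 / 2) * (|X e₁ e₂ A t - X e₁ e₂ C t| +
      |X e₁ e₂ C t - X e₁ e₂ B t| + |X e₁ e₂ B t - X e₁ e₂ D t| + |X e₁ e₂ D t - X e₁ e₂ A t|) ≤
      ∫ t in (0:ℝ)..(2 * π), (M t - m t) := by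
    refine integral_mono_on (by positivity) ?_ ((hMc.sub hmc).intervalIntegrable _ _)
      (fun t _ => hpt t)
    exact ((((c1 A C).add (c1 C B)).add (c1 B D)).add (c1 D A)).const_mul _
  rw [integral_const_mul, integral_add (((c1 A C).add (c1 C B)).add (c1 B D)) (c1 D A),
    integral_add ((c1 A C).add (c1 C B)) (c1 B D), integral_add (c1 A C) (c1 C B),
    integral_abs_X_sub, integral_abs_X_sub, integral_abs_X_sub, integral_abs_X_sub,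
    side_len l _ _ _ hl dAC, side_len l _ _ _ hl dCB, side_len l _ _ _ hl dBD,
    side_len l _ _ _ hl dDA] at hint
  have hn := quad_bound r (α / l) (β / l) (γ / l) (δ / l) hr0 hr (by positivity) (by positivity)
    (by positivity) (by positivity) (by rw [← add_div, hs, add_div])
    (by
      rw [div_pow, div_pow, div_pow, div_pow, ← add_div, ← add_div, ← add_div, hq]
      field_simp)
  rw [← add_div, ← add_div, ← add_div, ← add_div] at hn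
  have := mul_le_mul_of_nonneg_left hn hl.le
  linarith

/-- triangular shadows. -/
lemma core13 (r l : ℝ) (hr0 : 0 < r) (hr : r ^ 2 = 3) (hl : 0 < l) (e₁ e₂ B C D : E3)
    (M m : ℝ → ℝ) (hMc : Continuous M) (hmc : Continuous m)
    (hM : ∀ t, X e₁ e₂ B t ≤ M t ∧ X e₁ e₂ C t ≤ M t ∧ X e₁ e₂ D t ≤ M t)
    (hm : ∀ t, m t ≤ X e₁ e₂ B t ∧ m t ≤ X e₁ e₂ C t ∧ m t ≤ X e₁ e₂ D t)
    (β γ δ : ℝ) (hβ : 0 ≤ β) (hγ : 0 ≤ γ) (hδ : 0 ≤ δ)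
    (hq : (β + γ + δ) ^ 2 + β ^ 2 + γ ^ 2 + δ ^ 2 = l ^ 2 / 2)
    (dBC : (β - γ) ^ 2 + inner ℝ (B - C) e₁ ^ 2 + inner ℝ (B - C) e₂ ^ 2 = l ^ 2)
    (dCD : (γ - δ) ^ 2 + inner ℝ (C - D) e₁ ^ 2 + inner ℝ (C - D) e₂ ^ 2 = l ^ 2)
    (dDB : (δ - β) ^ 2 + inner ℝ (D - B) e₁ ^ 2 + inner ℝ (D - B) e₂ ^ 2 = l ^ 2) :
    (1 + r) * l ≤ (1 / 2) * ∫ t in (0:ℝ)..(2 * π), (M t - m t) := by
  have hpt : ∀ t, (1 / 2) * (|X e₁ e₂ B t - X e₁ e₂ C t| + |X e₁ e₂ C t - X e₁ e₂ D t| +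
      |X e₁ e₂ D t - X e₁ e₂ B t|) ≤ M t - m t := by
    intro t
    obtain ⟨m1, m2, m3⟩ := hM t
    obtain ⟨k1, k2, k3⟩ := hm t
    have := osc3' _ _ _ _ _ m1 m2 m3 k1 k2 k3
    linarith
  have c1 : ∀ P Q : E3, IntervalIntegrable (fun t => |X e₁ e₂ P t - X e₁ e₂ Q t|)
      MeasureTheory.volume 0 (2 * π) := fun P Q =>
    (((X_cont e₁ e₂ P).sub (X_cont e₁ e₂ Q)).abs).intervalIntegrable _ _
  have hint : ∫ t in (0:ℝ)..(2 * π), (1 / 2) * (|X e₁ e₂ B t - X e₁ e₂ C t| +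
      |X e₁ e₂ C t - X e₁ e₂ D t| + |X e₁ e₂ D t - X e₁ e₂ B t|) ≤
      ∫ t in (0:ℝ)..(2 * π), (M t - m t) := by
    refine integral_mono_on (by positivity) ?_ ((hMc.sub hmc).intervalIntegrable _ _)
      (fun t _ => hpt t)
    exact (((c1 B C).add (c1 C D)).add (c1 D B)).const_mul _
  rw [integral_const_mul, integral_add ((c1 B C).add (c1 C D)) (c1 D B),
    integral_add (c1 B C) (c1 C D), integral_abs_X_sub, integral_abs_X_sub, integral_abs_X_sub,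
    side_len l _ _ _ hl dBC, side_len l _ _ _ hl dCD, side_len l _ _ _ hl dDB] at hint
  have hn := tri_bound r (β / l) (γ / l) (δ / l) hr0 hr (by positivity) (by positivity)
    (by positivity)
    (by
      rw [← add_div, ← add_div, div_pow, div_pow, div_pow, div_pow, ← add_div, ← add_div,
        ← add_div, hq]
      field_simp)
  rw [← sub_div, ← sub_div, ← sub_div] at hn
  have := mul_le_mul_of_nonneg_left hn hl.le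
  linarith

end San
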