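/-
MP_72c0ec_gt (Santalo's shadow perimeter inequality), helper94: every shadow of the regular
tetrahedron with edge `l` has perimeter at least `(1 + √3) l`.
-/
import Pool.Agent.H.MP_72c0ec_gt.Lower

set_option autoImplicit false

namespace San

open Real intervalIntegral

/-- the case distinction on the signs. -/
lemma sign_cases (r l : ℝ) (hr0 : 0 < r) (hr : r ^ 2 = 3) (hl : 0 < l) (e₁ e₂ A B C D : E3)
    (M m : ℝ → ℝ) (hMc : Continuous M) (hmc : Continuous m)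
    (hM : ∀ t, X e₁ e₂ A t ≤ M t ∧ X e₁ e₂ B t ≤ M t ∧ X e₁ e₂ C t ≤ M t ∧ X e₁ e₂ D t ≤ M t)
    (hm : ∀ t, m t ≤ X e₁ e₂ A t ∧ m t ≤ X e₁ e₂ B t ∧ m t ≤ X e₁ e₂ C t ∧ m t ≤ X e₁ e₂ D t)
    (s : E3 → ℝ) (hA : 0 ≤ s A) (hs : s A + s B + s C + s D = 0)
    (hq : s A ^ 2 + s B ^ 2 + s C ^ 2 + s D ^ 2 = l ^ 2 / 2)
    (hx : s A * inner ℝ A e₁ + s B * inner ℝ B e₁ + s C * inner ℝ C e₁ + s D * inner ℝ D e₁ = 0)
    (hy : s A * inner ℝ A e₂ + s B * inner ℝ B e₂ + s C * inner ℝ C e₂ + s D * inner ℝ D e₂ = 0)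
    (hd : ∀ P Q : E3, (s P - s Q) ^ 2 + inner ℝ (P - Q) e₁ ^ 2 + inner ℝ (P - Q) e₂ ^ 2 =
      ‖P - Q‖ ^ 2)
    (hAB : ‖A - B‖ = l) (hAC : ‖A - C‖ = l) (hAD : ‖A - D‖ = l) (hBC : ‖B - C‖ = l)
    (hBD : ‖B - D‖ = l) (hCD : ‖C - D‖ = l) :
    (1 + r) * l ≤ (1 / 2) * ∫ t in (0:ℝ)..(2 * π), (M t - m t) := by
  have hBA : ‖B - A‖ = l := by rw [norm_sub_rev, hAB]
  have hCA : ‖C - A‖ = l := by rw [norm_sub_rev, hAC]
  have hDA : ‖D - A‖ = l := by rw [norm_sub_rev, hAD]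
  have hCB : ‖C - B‖ = l := by rw [norm_sub_rev, hBC]
  have hDB : ‖D - B‖ = l := by rw [norm_sub_rev, hBD]
  have hDC : ‖D - C‖ = l := by rw [norm_sub_rev, hCD]
  -- distances in the forms needed
  have dm : ∀ P Q : E3, ‖P - Q‖ = l →
      (s P - s Q) ^ 2 + inner ℝ (P - Q) e₁ ^ 2 + inner ℝ (P - Q) e₂ ^ 2 = l ^ 2 := by
    intro P Q h
    rw [hd, h]
  have dp : ∀ P Q : E3, ‖P - Q‖ = l →
      (s P + -s Q) ^ 2 + inner ℝ (P - Q) e₁ ^ 2 + inner ℝ (P - Q) e₂ ^ 2 = l ^ 2 := by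
    intro P Q h
    rw [← sub_eq_add_neg]
    exact dm P Q h
  have dp' : ∀ P Q : E3, ‖P - Q‖ = l →
      (-s P + s Q) ^ 2 + inner ℝ (P - Q) e₁ ^ 2 + inner ℝ (P - Q) e₂ ^ 2 = l ^ 2 := by
    intro P Q h
    rw [← dm P Q h]
    ring
  have dn : ∀ P Q : E3, ‖P - Q‖ = l →
      (-s P - -s Q) ^ 2 + inner ℝ (P - Q) e₁ ^ 2 + inner ℝ (P - Q) e₂ ^ 2 = l ^ 2 := by
    intro P Q h
    rw [← dm P Q h]
    ring
  rcases le_total 0 (s B) with hB | hB <;> rcases le_total 0 (s C) with hC | hC <;>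
    rcases le_total 0 (s D) with hD | hD
  · exfalso
    have h1 : s A = 0 := by linarith
    have h2 : s B = 0 := by linarith
    have h3 : s C = 0 := by linarith
    have h4 : s D = 0 := by linarith
    rw [h1, h2, h3, h4] at hq
    have : 0 < l ^ 2 := by positivity
    linarith
  · -- `D` alone
    refine core13 r l hr0 hr hl e₁ e₂ A B C M m hMc hmc
      (fun t => ⟨(hM t).1, (hM t).2.1, (hM t).2.2.1⟩)
      (fun t => ⟨(hm t).1, (hm t).2.1, (hm t).2.2.1⟩) (s A) (s B) (s C) hA hB hC ?_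
      (dm A B hAB) (dm B C hBC) (dm C A hCA)
    have : s A + s B + s C = -s D := by linarith
    rw [this, neg_sq]
    linarith
  · -- `C` alone
    refine core13 r l hr0 hr hl e₁ e₂ A B D M m hMc hmc
      (fun t => ⟨(hM t).1, (hM t).2.1, (hM t).2.2.2⟩)
      (fun t => ⟨(hm t).1, (hm t).2.1, (hm t).2.2.2⟩) (s A) (s B) (s D) hA hB hD ?_
      (dm A B hAB) (dm B D hBD) (dm D A hDA)
    have : s A + s B + s D = -s C := by linarith
    rw [this, neg_sq]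
    linarith
  · -- `A, B` against `C, D`
    exact core22 r l hr0 hr hl e₁ e₂ A B C D M m hMc hmc hM hm (s A) (s B) (-s C) (-s D) hA hB
      (by linarith) (by linarith) (by linarith) (by rw [neg_sq, neg_sq]; exact hq) (by linarith)
      (by linarith) (dp A C hAC) (dp' C B hCB) (dp B D hBD) (dp' D A hDA)
  · -- `B` alone
    refine core13 r l hr0 hr hl e₁ e₂ A C D M m hMc hmc
      (fun t => ⟨(hM t).1, (hM t).2.2.1, (hM t).2.2.2⟩)
      (fun t => ⟨(hm t).1, (hm t).2.2.1, (hm t).2.2.2⟩) (s A) (s C) (s D) hA hC hD ?_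
      (dm A C hAC) (dm C D hCD) (dm D A hDA)
    have : s A + s C + s D = -s B := by linarith
    rw [this, neg_sq]
    linarith
  · -- `A, C` against `B, D`
    exact core22 r l hr0 hr hl e₁ e₂ A C B D M m hMc hmc
      (fun t => ⟨(hM t).1, (hM t).2.2.1, (hM t).2.1, (hM t).2.2.2⟩)
      (fun t => ⟨(hm t).1, (hm t).2.2.1, (hm t).2.1, (hm t).2.2.2⟩)
      (s A) (s C) (-s B) (-s D) hA hC
      (by linarith) (by linarith) (by linarith) (by rw [neg_sq, neg_sq]; linarith) (by linarith)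
      (by linarith) (dp A B hAB) (dp' B C hBC) (dp C D hCD) (dp' D A hDA)
  · -- `A, D` against `B, C`
    exact core22 r l hr0 hr hl e₁ e₂ A D B C M m hMc hmc
      (fun t => ⟨(hM t).1, (hM t).2.2.2, (hM t).2.1, (hM t).2.2.1⟩)
      (fun t => ⟨(hm t).1, (hm t).2.2.2, (hm t).2.1, (hm t).2.2.1⟩)
      (s A) (s D) (-s B) (-s C) hA hD
      (by linarith) (by linarith) (by linarith) (by rw [neg_sq, neg_sq]; linarith) (by linarith)
      (by linarith) (dp A B hAB) (dp' B D hBD) (dp D C hDC) (dp' C A hCA)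
  · -- `A` alone
    refine core13 r l hr0 hr hl e₁ e₂ B C D M m hMc hmc
      (fun t => ⟨(hM t).2.1, (hM t).2.2.1, (hM t).2.2.2⟩)
      (fun t => ⟨(hm t).2.1, (hm t).2.2.1, (hm t).2.2.2⟩) (-s B) (-s C) (-s D)
      (by linarith) (by linarith) (by linarith) ?_
      (dn B C hBC) (dn C D hCD) (dn D B hDB)
    have : -s B + -s C + -s D = s A := by linarith
    rw [this, neg_sq, neg_sq, neg_sq]
    linarith

/-- every shadow of the regular tetrahedron with edge `l` has perimeter at least `(1 + √3) l`. -/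
theorem lower (r l : ℝ) (hr0 : 0 < r) (hr : r ^ 2 = 3) (hl : 0 < l) (A B C D e₁ e₂ : E3)
    (h : Orthonormal ℝ ![e₁, e₂])
    (hAB : ‖A - B‖ = l) (hAC : ‖A - C‖ = l) (hAD : ‖A - D‖ = l) (hBC : ‖B - C‖ = l)
    (hBD : ‖B - D‖ = l) (hCD : ‖C - D‖ = l) :
    (1 + r) * l ≤ shadowPerimeter (convexHull ℝ {A, B, C, D}) e₁ e₂ := by
  obtain ⟨b, hb1, hb2⟩ := exists_basis2 e₁ e₂ h
  rw [perim_osc]
  let g : Fin 3 → ℝ := fun i => (inner ℝ A (b i) + inner ℝ B (b i) + inner ℝ C (b i) +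
    inner ℝ D (b i)) / 4
  let s : E3 → ℝ := fun P => inner ℝ P (b 0) - g 0
  have hsub : ∀ (P Q : E3) (i : Fin 3), (inner ℝ P (b i) - g i) - (inner ℝ Q (b i) - g i) =
      inner ℝ (P - Q) (b i) := by
    intro P Q i
    rw [inner_sub_left]
    ring
  have hd : ∀ P Q : E3, (s P - s Q) ^ 2 + inner ℝ (P - Q) e₁ ^ 2 + inner ℝ (P - Q) e₂ ^ 2 =
      ‖P - Q‖ ^ 2 := by
    intro P Q
    rw [norm_coord b, hb1, hb2]
    show ((inner ℝ P (b 0) - g 0) - (inner ℝ Q (b 0) - g 0)) ^ 2 + _ + _ = _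
    rw [hsub]
  have hdd : ∀ P Q : E3, ‖P - Q‖ = l →
      ((inner ℝ P (b 0) - g 0) - (inner ℝ Q (b 0) - g 0)) ^ 2 +
      ((inner ℝ P (b 1) - g 1) - (inner ℝ Q (b 1) - g 1)) ^ 2 +
      ((inner ℝ P (b 2) - g 2) - (inner ℝ Q (b 2) - g 2)) ^ 2 = l ^ 2 := by
    intro P Q hPQ
    rw [hsub, hsub, hsub, ← norm_coord, hPQ]
  have hsum : ∀ i : Fin 3, (inner ℝ A (b i) - g i) + (inner ℝ B (b i) - g i) +
      (inner ℝ C (b i) - g i) + (inner ℝ D (b i) - g i) = 0 := by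
    intro i
    simp only [g]
    ring
  obtain ⟨f0, f1, f2⟩ := frame _ _ _ _ _ _ _ _ _ _ _ _ (l ^ 2) (hsum 0) (hsum 1) (hsum 2)
    (hdd A B hAB) (hdd A C hAC) (hdd A D hAD) (hdd B C hBC) (hdd B D hBD) (hdd C D hCD)
  have hs : s A + s B + s C + s D = 0 := hsum 0
  have hq : s A ^ 2 + s B ^ 2 + s C ^ 2 + s D ^ 2 = l ^ 2 / 2 := f0
  have hx : s A * inner ℝ A e₁ + s B * inner ℝ B e₁ + s C * inner ℝ C e₁ + s D * inner ℝ D e₁ = 0 := by
    have f1' : s A * (inner ℝ A (b 1) - g 1) + s B * (inner ℝ B (b 1) - g 1) +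
      s C * (inner ℝ C (b 1) - g 1) + s D * (inner ℝ D (b 1) - g 1) = 0 := f1
    rw [hb1] at f1'
    have e : s A * (inner ℝ A e₁ - g 1) + s B * (inner ℝ B e₁ - g 1) +
      s C * (inner ℝ C e₁ - g 1) + s D * (inner ℝ D e₁ - g 1) =
      (s A * inner ℝ A e₁ + s B * inner ℝ B e₁ + s C * inner ℝ C e₁ + s D * inner ℝ D e₁) -
      g 1 * (s A + s B + s C + s D) := by ring
    rw [e, hs] at f1'
    linarith
  have hy : s A * inner ℝ A e₂ + s B * inner ℝ B e₂ + s C * inner ℝ C e₂ + s D * inner ℝ D e₂ = 0 := by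
    have f2' : s A * (inner ℝ A (b 2) - g 2) + s B * (inner ℝ B (b 2) - g 2) +
      s C * (inner ℝ C (b 2) - g 2) + s D * (inner ℝ D (b 2) - g 2) = 0 := f2
    rw [hb2] at f2'
    have e : s A * (inner ℝ A e₂ - g 2) + s B * (inner ℝ B e₂ - g 2) +
      s C * (inner ℝ C e₂ - g 2) + s D * (inner ℝ D e₂ - g 2) =
      (s A * inner ℝ A e₂ + s B * inner ℝ B e₂ + s C * inner ℝ C e₂ + s D * inner ℝ D e₂) -
      g 2 * (s A + s B + s C + s D) := by ring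
    rw [e, hs] at f2'
    linarith
  have hM : ∀ t, X e₁ e₂ A t ≤ mx e₁ e₂ A B C D t ∧ X e₁ e₂ B t ≤ mx e₁ e₂ A B C D t ∧
      X e₁ e₂ C t ≤ mx e₁ e₂ A B C D t ∧ X e₁ e₂ D t ≤ mx e₁ e₂ A B C D t := fun t =>
    ⟨(le_max_left _ _).trans (le_max_left _ _), (le_max_right _ _).trans (le_max_left _ _),
      (le_max_left _ _).trans (le_max_right _ _), (le_max_right _ _).trans (le_max_right _ _)⟩
  have hm : ∀ t, mn e₁ e₂ A B C D t ≤ X e₁ e₂ A t ∧ mn e₁ e₂ A B C D t ≤ X e₁ e₂ B t ∧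
      mn e₁ e₂ A B C D t ≤ X e₁ e₂ C t ∧ mn e₁ e₂ A B C D t ≤ X e₁ e₂ D t := fun t =>
    ⟨(min_le_left _ _).trans (min_le_left _ _), (min_le_left _ _).trans (min_le_right _ _),
      (min_le_right _ _).trans (min_le_left _ _), (min_le_right _ _).trans (min_le_right _ _)⟩
  rcases le_total 0 (s A) with hA | hA
  · exact sign_cases r l hr0 hr hl e₁ e₂ A B C D _ _ (mx_cont _ _ _ _ _ _) (mn_cont _ _ _ _ _ _)
      hM hm s hA hs hq hx hy hd hAB hAC hAD hBC hBD hCD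
  · refine sign_cases r l hr0 hr hl e₁ e₂ A B C D _ _ (mx_cont _ _ _ _ _ _) (mn_cont _ _ _ _ _ _)
      hM hm (fun P => -s P) (by simpa using hA) (by linarith) (by simpa only [neg_sq] using hq)
      (by linarith) (by linarith) (fun P Q => ?_) hAB hAC hAD hBC hBD hCD
    rw [← hd P Q]
    ring

end San
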