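/-
MP_72c0ec_gt (Santalo's shadow perimeter inequality), helper94: assembly.
-/
import Pool.Agent.H.MP_72c0ec_gt.Regular

set_option autoImplicit false

namespace San

open Real intervalIntegral

lemma perim_nonneg (A B C D e₁ e₂ : E3) :
    0 ≤ shadowPerimeter (convexHull ℝ {A, B, C, D}) e₁ e₂ := by
  rw [perim_osc]
  refine mul_nonneg (by norm_num) (integral_nonneg (by positivity) fun t _ => ?_)
  rw [sub_nonneg]
  exact ((min_le_left _ _).trans (min_le_left _ _)).trans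
    ((le_max_left _ _).trans (le_max_left _ _))

lemma bdd (A B C D : E3) : BddBelow {L | ∃ e₁ e₂ : E3, Orthonormal ℝ ![e₁, e₂] ∧
    L = shadowPerimeter (convexHull ℝ {A, B, C, D}) e₁ e₂} := by
  refine ⟨0, ?_⟩
  rintro L ⟨e₁, e₂, _, rfl⟩
  exact perim_nonneg _ _ _ _ _ _

lemma minShadow_le (A B C D e₁ e₂ : E3) (h : Orthonormal ℝ ![e₁, e₂]) :
    minShadow (convexHull ℝ {A, B, C, D}) ≤ shadowPerimeter (convexHull ℝ {A, B, C, D}) e₁ e₂ :=
  csInf_le (bdd A B C D) ⟨e₁, e₂, h, rfl⟩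

lemma minShadow_nonneg (A B C D : E3) : 0 ≤ minShadow (convexHull ℝ {A, B, C, D}) := by
  refine Real.sInf_nonneg ?_
  rintro L ⟨e₁, e₂, _, rfl⟩
  exact perim_nonneg _ _ _ _ _ _

lemma triArea_swap12 (P Q R : E3) : triArea P Q R = triArea Q P R := by
  unfold triArea
  congr 2
  have h1 : ‖P - Q‖ = ‖Q - P‖ := norm_sub_rev _ _
  have h2 : R - Q = (R - P) - (Q - P) := by abel
  have h3 : P - Q = -(Q - P) := by abel
  rw [h1, h2, h3, inner_neg_left, inner_sub_right (Q - P) (R - P) (Q - P),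
    real_inner_self_eq_norm_sq, norm_sub_sq_real (R - P) (Q - P), real_inner_comm (Q - P) (R - P)]
  ring

lemma triArea_swap23 (P Q R : E3) : triArea P Q R = triArea P R Q := by
  unfold triArea
  congr 2
  rw [real_inner_comm (Q - P) (R - P)]
  ring

lemma noncol (V : Fin 4 → E3) (h : AffineIndependent ℝ V) (i j k : Fin 4)
    (hik : i ≠ k) (hjk : j ≠ k) (c : ℝ) : V k - V i ≠ c • (V j - V i) := by
  intro heq
  rw [affineIndependent_iff] at h
  let w : Fin 4 → ℝ := fun x => (if x = k then 1 else 0) - c * (if x = j then 1 else 0) -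
    (1 - c) * (if x = i then 1 else 0)
  have h1 : ∑ x, w x = 0 := by
    simp only [w, Finset.sum_sub_distrib, ← Finset.mul_sum, Finset.sum_ite_eq', Finset.mem_univ,
      if_true]
    ring
  have h2 : ∑ x, w x • V x = 0 := by
    simp only [w, sub_smul, mul_smul, Finset.sum_sub_distrib, ← Finset.smul_sum, ite_smul, one_smul,
      zero_smul, Finset.sum_ite_eq', Finset.mem_univ, if_true]
    have : V k = V i + c • (V j - V i) := by rw [← heq]; abel
    rw [this, smul_sub]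
    abel
  have h3 := h Finset.univ w h1 h2 k (Finset.mem_univ _)
  simp only [w, if_true, if_neg hjk.symm, if_neg hik.symm] at h3
  norm_num at h3

lemma max6 (x1 x2 x3 x4 x5 x6 : ℝ) :
    (x2 ≤ x1 ∧ x3 ≤ x1 ∧ x4 ≤ x1 ∧ x5 ≤ x1 ∧ x6 ≤ x1) ∨
    (x1 ≤ x2 ∧ x3 ≤ x2 ∧ x4 ≤ x2 ∧ x5 ≤ x2 ∧ x6 ≤ x2) ∨
    (x1 ≤ x3 ∧ x2 ≤ x3 ∧ x4 ≤ x3 ∧ x5 ≤ x3 ∧ x6 ≤ x3) ∨
    (x1 ≤ x4 ∧ x2 ≤ x4 ∧ x3 ≤ x4 ∧ x5 ≤ x4 ∧ x6 ≤ x4) ∨
    (x1 ≤ x5 ∧ x2 ≤ x5 ∧ x3 ≤ x5 ∧ x4 ≤ x5 ∧ x6 ≤ x5) ∨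
    (x1 ≤ x6 ∧ x2 ≤ x6 ∧ x3 ≤ x6 ∧ x4 ≤ x6 ∧ x5 ≤ x6) := by
  obtain ⟨i, hi⟩ := Finite.exists_max (![x1, x2, x3, x4, x5, x6] : Fin 6 → ℝ)
  have h0 := hi 0
  have h1 := hi 1
  have h2 := hi 2
  have h3 := hi 3
  have h4 := hi 4
  have h5 := hi 5
  fin_cases i
  · exact Or.inl ⟨h1, h2, h3, h4, h5⟩
  · exact Or.inr (Or.inl ⟨h0, h2, h3, h4, h5⟩)
  · exact Or.inr (Or.inr (Or.inl ⟨h0, h1, h3, h4, h5⟩))
  · exact Or.inr (Or.inr (Or.inr (Or.inl ⟨h0, h1, h2, h4, h5⟩)))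
  · exact Or.inr (Or.inr (Or.inr (Or.inr (Or.inl ⟨h0, h1, h2, h3, h5⟩))))
  · exact Or.inr (Or.inr (Or.inr (Or.inr (Or.inr ⟨h0, h1, h2, h3, h4⟩))))

/-- the total area of the faces. -/
noncomputable def faces (A B C D : E3) : ℝ :=
  triArea A B C + triArea A B D + triArea A C D + triArea B C D

/-- the upper bound for an arbitrary tetrahedron. -/
theorem upper_all (A B C D : E3) (r : ℝ) (hr0 : 0 < r) (hr : r ^ 2 = 3)
    (h : AffineIndependent ℝ ![A, B, C, D]) :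
    ∃ e₁ e₂ : E3, Orthonormal ℝ ![e₁, e₂] ∧
      (2 * r - 3) * shadowPerimeter (convexHull ℝ {A, B, C, D}) e₁ e₂ ^ 2 ≤ 2 * faces A B C D ∧
      ((2 * r - 3) * shadowPerimeter (convexHull ℝ {A, B, C, D}) e₁ e₂ ^ 2 = 2 * faces A B C D →
        ∃ l, ‖B - A‖ = l ∧ ‖C - A‖ = l ∧ ‖D - A‖ = l ∧ ‖C - B‖ = l ∧ ‖D - B‖ = l ∧
          ‖C - D‖ = l) := by
  have hinj := h.injective
  have nAB : A ≠ B := fun e => absurd (hinj (a₁ := 0) (a₂ := 1) e) (by decide)
  have nAC : A ≠ C := fun e => absurd (hinj (a₁ := 0) (a₂ := 2) e) (by decide)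
  have nAD : A ≠ D := fun e => absurd (hinj (a₁ := 0) (a₂ := 3) e) (by decide)
  have nBC : B ≠ C := fun e => absurd (hinj (a₁ := 1) (a₂ := 2) e) (by decide)
  have nBD : B ≠ D := fun e => absurd (hinj (a₁ := 1) (a₂ := 3) e) (by decide)
  have nCD : C ≠ D := fun e => absurd (hinj (a₁ := 2) (a₂ := 3) e) (by decide)
  have rAB := norm_sub_rev A B
  have rAC := norm_sub_rev A C
  have rAD := norm_sub_rev A D
  have rBC := norm_sub_rev B C
  have rBD := norm_sub_rev B D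
  have rCD := norm_sub_rev C D
  rcases max6 ‖B - A‖ ‖C - A‖ ‖D - A‖ ‖C - B‖ ‖D - B‖ ‖C - D‖ with
    ⟨h1, h2, h3, h4, h5⟩ | ⟨h1, h2, h3, h4, h5⟩ | ⟨h1, h2, h3, h4, h5⟩ | ⟨h1, h2, h3, h4, h5⟩ |
    ⟨h1, h2, h3, h4, h5⟩ | ⟨h1, h2, h3, h4, h5⟩
  · -- `AB`
    obtain ⟨e₁, e₂, k1, k2, k3⟩ := upper A B C D r hr0 hr nAB
      (noncol _ h 0 1 2 (by decide) (by decide)) h1 h3 h2 h4 h5
    refine ⟨e₁, e₂, k1, k2, fun heq => ?_⟩
    obtain ⟨m1, m2, m3, m4, m5⟩ := k3 heq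
    exact ⟨_, rfl, m1, m3, m2, m4, m5⟩
  · -- `AC`
    have hset : ({A, C, B, D} : Set E3) = {A, B, C, D} := by rw [Set.insert_comm C B]
    have hF : triArea A C B + triArea A C D + triArea A B D + triArea C B D = faces A B C D := by
      rw [faces, triArea_swap23 A C B, triArea_swap12 C B D]; ring
    obtain ⟨e₁, e₂, k1, k2, k3⟩ := upper A C B D r hr0 hr nAC
      (noncol _ h 0 2 1 (by decide) (by decide)) h1 (by rw [rBC]; exact h3) h2
      (by rw [← rCD]; exact h5) (by rw [rBD]; exact h4)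
    rw [hset, hF] at k2 k3
    refine ⟨e₁, e₂, k1, k2, fun heq => ?_⟩
    obtain ⟨m1, m2, m3, m4, m5⟩ := k3 heq
    exact ⟨_, m1, rfl, m3, by rw [← rBC]; exact m2, by rw [← rBD]; exact m5,
      by rw [rCD]; exact m4⟩
  · -- `AD`
    have hset : ({A, D, B, C} : Set E3) = {A, B, C, D} := by
      rw [Set.insert_comm D B, Set.pair_comm D C]
    have hF : triArea A D B + triArea A D C + triArea A B C + triArea D B C = faces A B C D := by
      rw [faces, triArea_swap23 A D B, triArea_swap23 A D C, triArea_swap12 D B C,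
        triArea_swap23 B D C]; ring
    obtain ⟨e₁, e₂, k1, k2, k3⟩ := upper A D B C r hr0 hr nAD
      (noncol _ h 0 3 1 (by decide) (by decide)) h1 (by rw [rBD]; exact h4) h2
      h5 (by rw [rBC]; exact h3)
    rw [hset, hF] at k2 k3
    refine ⟨e₁, e₂, k1, k2, fun heq => ?_⟩
    obtain ⟨m1, m2, m3, m4, m5⟩ := k3 heq
    exact ⟨_, m1, m3, rfl, by rw [← rBC]; exact m5, by rw [← rBD]; exact m2, m4⟩
  · -- `BC`
    have hset : ({B, C, A, D} : Set E3) = {A, B, C, D} := by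
      rw [Set.insert_comm C A, Set.insert_comm B A]
    have hF : triArea B C A + triArea B C D + triArea B A D + triArea C A D = faces A B C D := by
      rw [faces, triArea_swap23 B C A, triArea_swap12 B A C, triArea_swap12 B A D,
        triArea_swap12 C A D]; ring
    obtain ⟨e₁, e₂, k1, k2, k3⟩ := upper B C A D r hr0 hr nBC
      (noncol _ h 1 2 0 (by decide) (by decide)) (by rw [rAB]; exact h1)
      (by rw [rAC]; exact h2) h4 (by rw [← rCD]; exact h5) (by rw [rAD]; exact h3)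
    rw [hset, hF] at k2 k3
    refine ⟨e₁, e₂, k1, k2, fun heq => ?_⟩
    obtain ⟨m1, m2, m3, m4, m5⟩ := k3 heq
    exact ⟨_, by rw [← rAB]; exact m1, by rw [← rAC]; exact m2, by rw [← rAD]; exact m5, rfl, m3,
      by rw [rCD]; exact m4⟩
  · -- `BD`
    have hset : ({B, D, A, C} : Set E3) = {A, B, C, D} := by
      rw [Set.insert_comm D A, Set.insert_comm B A, Set.pair_comm D C]
    have hF : triArea B D A + triArea B D C + triArea B A C + triArea D A C = faces A B C D := by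
      rw [faces, triArea_swap23 B D A, triArea_swap12 B A D, triArea_swap23 B D C,
        triArea_swap12 B A C, triArea_swap12 D A C, triArea_swap23 A D C]; ring
    obtain ⟨e₁, e₂, k1, k2, k3⟩ := upper B D A C r hr0 hr nBD
      (noncol _ h 1 3 0 (by decide) (by decide)) (by rw [rAB]; exact h1)
      (by rw [rAD]; exact h3) h4 h5 (by rw [rAC]; exact h2)
    rw [hset, hF] at k2 k3
    refine ⟨e₁, e₂, k1, k2, fun heq => ?_⟩
    obtain ⟨m1, m2, m3, m4, m5⟩ := k3 heq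
    exact ⟨_, by rw [← rAB]; exact m1, by rw [← rAC]; exact m5, by rw [← rAD]; exact m2, m3, rfl,
      m4⟩
  · -- `CD`
    have hset : ({D, C, A, B} : Set E3) = {A, B, C, D} := by
      ext x
      simp only [Set.mem_insert_iff, Set.mem_singleton_iff]
      tauto
    have hF : triArea D C A + triArea D C B + triArea D A B + triArea C A B = faces A B C D := by
      rw [faces, triArea_swap23 D C A, triArea_swap12 D A C, triArea_swap23 A D C,
        triArea_swap23 D C B, triArea_swap12 D B C, triArea_swap23 B D C,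
        triArea_swap12 D A B, triArea_swap23 A D B, triArea_swap12 C A B, triArea_swap23 A C B]
      ring
    obtain ⟨e₁, e₂, k1, k2, k3⟩ := upper D C A B r hr0 hr nCD.symm
      (noncol _ h 3 2 0 (by decide) (by decide)) (by rw [rAD]; exact h3)
      (by rw [rAC]; exact h2) (by rw [rBD]; exact h5) (by rw [rBC]; exact h4)
      (by rw [rAB]; exact h1)
    rw [hset, hF] at k2 k3
    refine ⟨e₁, e₂, k1, k2, fun heq => ?_⟩
    obtain ⟨m1, m2, m3, m4, m5⟩ := k3 heq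
    exact ⟨_, by rw [← rAB]; exact m5, by rw [← rAC]; exact m2, by rw [← rAD]; exact m1,
      by rw [← rBC]; exact m4, by rw [← rBD]; exact m3, rfl⟩

/-- the area of an equilateral triangle. -/
lemma triArea_eq (r l : ℝ) (hr0 : 0 < r) (hr : r ^ 2 = 3) (P Q R : E3)
    (h1 : ‖Q - P‖ = l) (h2 : ‖R - P‖ = l) (h3 : ‖Q - R‖ = l) : triArea P Q R = r * l ^ 2 / 4 := by
  have h4 : inner ℝ (Q - P) (R - P) = l ^ 2 / 2 := by
    have : ‖(Q - P) - (R - P)‖ ^ 2 = l ^ 2 := by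
      rw [show (Q - P) - (R - P) = Q - R by abel, h3]
    rw [norm_sub_sq_real, h1, h2] at this
    linarith
  have e : l ^ 2 * l ^ 2 - (l ^ 2 / 2) ^ 2 = (r * l ^ 2 / 2) ^ 2 := by
    have e1 : (r * l ^ 2 / 2) ^ 2 = r ^ 2 * (l ^ 2) ^ 2 / 4 := by ring
    rw [e1, hr]
    ring
  rw [triArea, h1, h2, h4, e, Real.sqrt_sq (by positivity)]
  ring

end San
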